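import Mathlib

/-!
# Asymptotic spectrum distance on infinite graphs (MP_d03f2b_co): definitions
-/

set_option autoImplicit false

open Set Filter Topology

namespace Pool.Agent.AsympSpec

/-- `f` is a cohomomorphism from `G` to `H`: distinct non-adjacent vertices of `G` are sent to
distinct non-adjacent vertices of `H`. -/
def IsCohom {V W : Type*} (G : SimpleGraph V) (H : SimpleGraph W) (f : V → W) : Prop :=
  ∀ u v, u ≠ v → ¬ G.Adj u v → f u ≠ f v ∧ ¬ H.Adj (f u) (f v)

/-- `G ≤ H` in the cohomomorphism preorder. -/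
def CoLe {V W : Type*} (G : SimpleGraph V) (H : SimpleGraph W) : Prop :=
  ∃ f : V → W, IsCohom G H f

/-- The strong product of two graphs. -/
def strongProd {V W : Type*} (G : SimpleGraph V) (H : SimpleGraph W) : SimpleGraph (V × W) where
  Adj x y := x ≠ y ∧ (x.1 = y.1 ∨ G.Adj x.1 y.1) ∧ (x.2 = y.2 ∨ H.Adj x.2 y.2)
  symm := ⟨fun _ _ h => ⟨h.1.symm, h.2.1.imp Eq.symm (fun h => h.symm),
    h.2.2.imp Eq.symm (fun h => h.symm)⟩⟩
  loopless := ⟨fun _ h => h.1 rfl⟩

/-- The class of all graphs with at most continuum many vertices and finite clique covering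
number, i.e. with `G ≤ E_n` for some `n`, where `E_n` is the edgeless graph on `n` vertices. -/
structure GInf : Type 1 where
  /-- the vertices -/
  V : Type
  /-- the graph -/
  G : SimpleGraph V
  card_le : Cardinal.mk V ≤ Cardinal.continuum
  cover : ∃ n : ℕ, CoLe G (⊥ : SimpleGraph (Fin n))

theorem isCohom_comp {V W U : Type*} {G : SimpleGraph V} {H : SimpleGraph W} {K : SimpleGraph U}
    {f : V → W} {g : W → U} (hf : IsCohom G H f) (hg : IsCohom H K g) : IsCohom G K (g ∘ f) := by
  intro u v h1 h2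
  obtain ⟨h3, h4⟩ := hf u v h1 h2
  exact hg _ _ h3 h4

theorem CoLe.refl {V : Type*} (G : SimpleGraph V) : CoLe G G := ⟨id, fun _ _ h1 h2 => ⟨h1, h2⟩⟩

theorem CoLe.trans {V W U : Type*} {G : SimpleGraph V} {H : SimpleGraph W} {K : SimpleGraph U}
    (h1 : CoLe G H) (h2 : CoLe H K) : CoLe G K := by
  obtain ⟨f, hf⟩ := h1
  obtain ⟨g, hg⟩ := h2
  exact ⟨g ∘ f, isCohom_comp hf hg⟩

/-- distinct and non-adjacent -/
def Sep {V : Type*} (G : SimpleGraph V) (u v : V) : Prop := u ≠ v ∧ ¬ G.Adj u v

theorem isCohom_iff {V W : Type*} {G : SimpleGraph V} {H : SimpleGraph W} {f : V → W} :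
    IsCohom G H f ↔ ∀ u v, Sep G u v → Sep H (f u) (f v) := by
  constructor
  · intro h u v huv
    exact h u v huv.1 huv.2
  · intro h u v h1 h2
    exact h u v ⟨h1, h2⟩

theorem sep_strong {V W : Type*} (G : SimpleGraph V) (H : SimpleGraph W) (x y : V × W) :
    Sep (strongProd G H) x y ↔ Sep G x.1 y.1 ∨ Sep H x.2 y.2 := by
  constructor
  · rintro ⟨h1, h2⟩
    by_contra hcon
    rw [not_or] at hcon
    apply h2
    refine ⟨h1, ?_, ?_⟩
    · by_contra h3
      rw [not_or] at h3
      exact hcon.1 h3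
    · by_contra h3
      rw [not_or] at h3
      exact hcon.2 h3
  · rintro (⟨h1, h2⟩ | ⟨h1, h2⟩)
    · refine ⟨fun h => h1 (by rw [h]), fun h => ?_⟩
      rcases h.2.1 with h3 | h3
      · exact h1 h3
      · exact h2 h3
    · refine ⟨fun h => h1 (by rw [h]), fun h => ?_⟩
      rcases h.2.2 with h3 | h3
      · exact h1 h3
      · exact h2 h3

theorem sep_bot {V : Type*} (x y : V) : Sep (⊥ : SimpleGraph V) x y ↔ x ≠ y := by
  simp [Sep]

theorem sep_compl {V : Type*} (K : SimpleGraph V) (x y : V) : Sep Kᶜ x y ↔ K.Adj x y := by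
  unfold Sep
  rw [SimpleGraph.compl_adj]
  constructor
  · rintro ⟨h1, h2⟩
    by_contra h3
    exact h2 ⟨h1, h3⟩
  · intro h
    exact ⟨h.ne, fun h2 => h2.2 h⟩

/-- The edgeless graph with `n` vertices. -/
def GInf.E (n : ℕ) : GInf where
  V := Fin n
  G := ⊥
  card_le := (Cardinal.mk_le_aleph0).trans Cardinal.aleph0_le_continuum
  cover := ⟨n, CoLe.refl _⟩

/-- The disjoint union of two graphs. -/
def GInf.sum (A B : GInf) : GInf where
  V := A.V ⊕ B.V
  G := A.G ⊕g B.G
  card_le := by
    rw [Cardinal.mk_sum, Cardinal.lift_id, Cardinal.lift_id]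
    exact (add_le_add A.card_le B.card_le).trans
      (by rw [Cardinal.continuum_add_self])
  cover := by
    obtain ⟨n, f, hf⟩ := A.cover
    obtain ⟨m, g, hg⟩ := B.cover
    refine ⟨n + m, Sum.elim (fun v => Fin.castAdd m (f v)) (fun w => Fin.natAdd n (g w)), ?_⟩
    rintro (u | u) (v | v) h1 h2
    · rw [SimpleGraph.sum_adj_inl] at h2
      have h3 := (hf u v (fun h => h1 (by rw [h])) h2).1
      refine ⟨fun h => h3 ?_, fun h => h.elim⟩
      simpa using h
    · refine ⟨fun h => ?_, fun h => h.elim⟩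
      have := congrArg Fin.val h
      simp at this
      omega
    · refine ⟨fun h => ?_, fun h => h.elim⟩
      have := congrArg Fin.val h
      simp at this
      omega
    · rw [SimpleGraph.sum_adj_inr] at h2
      have h3 := (hg u v (fun h => h1 (by rw [h])) h2).1
      refine ⟨fun h => h3 ?_, fun h => h.elim⟩
      simpa using h

/-- The strong product of two graphs. -/
def GInf.prod (A B : GInf) : GInf where
  V := A.V × B.V
  G := strongProd A.G B.G
  card_le := by
    rw [Cardinal.mk_prod, Cardinal.lift_id, Cardinal.lift_id]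
    exact (mul_le_mul' A.card_le B.card_le).trans (by rw [Cardinal.continuum_mul_self])
  cover := by
    obtain ⟨n, f, hf⟩ := A.cover
    obtain ⟨m, g, hg⟩ := B.cover
    rw [isCohom_iff] at hf hg
    refine ⟨n * m, fun x => finProdFinEquiv (f x.1, g x.2), ?_⟩
    rw [isCohom_iff]
    intro x y hxy
    rw [sep_strong] at hxy
    rw [sep_bot]
    intro h
    have h4 := finProdFinEquiv.injective h
    rw [Prod.mk.injEq] at h4
    rcases hxy with h5 | h5
    · exact ((sep_bot _ _).1 (hf _ _ h5)) h4.1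
    · exact ((sep_bot _ _).1 (hg _ _ h5)) h4.2

/-- The asymptotic spectrum: additive, multiplicative, normalised, monotone functions. -/
structure Spectrum where
  /-- the function -/
  F : GInf → ℝ
  nonneg : ∀ A, 0 ≤ F A
  add : ∀ A B, F (A.sum B) = F A + F B
  mul : ∀ A B, F (A.prod B) = F A * F B
  norm : ∀ n : ℕ, F (GInf.E n) = n
  mono : ∀ A B : GInf, CoLe A.G B.G → F A ≤ F B

/-- The asymptotic spectrum distance `sup_F |F A - F B|`, with values in `[0, ∞]`. -/
noncomputable def specDist (A B : GInf) : ENNReal :=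
  ⨆ φ : Spectrum, ENNReal.ofReal |φ.F A - φ.F B|

end Pool.Agent.AsympSpec
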