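import Pool.Agent.Lib_MP_d03f2b_co.Defs

/-!
# The finite fractional clique cover number is a spectral point
-/

set_option autoImplicit false

open Set Filter Topology

namespace Pool.Agent.AsympSpec

/-- `(Q, c)` is a finite fractional clique cover of `G`. -/
structure IsFC {V : Type} (G : SimpleGraph V) (ι : Type) [Fintype ι] (Q : ι → Set V)
    (c : ι → ℝ) : Prop where
  nonneg : ∀ i, 0 ≤ c i
  clique : ∀ i, ∀ u ∈ Q i, ∀ v ∈ Q i, ¬ Sep G u v
  cover : ∀ v, 1 ≤ ∑ i, (Q i).indicator (fun _ => c i) v

/-- the values of finite fractional clique covers -/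
def fcSet {V : Type} (G : SimpleGraph V) : Set ℝ :=
  {t | ∃ (ι : Type) (_ : Fintype ι) (Q : ι → Set V) (c : ι → ℝ), IsFC G ι Q c ∧ t = ∑ i, c i}

/-- the finite fractional clique cover number -/
noncomputable def fc {V : Type} (G : SimpleGraph V) : ℝ := sInf (fcSet G)

theorem fcSet_nonneg {V : Type} (G : SimpleGraph V) : ∀ t ∈ fcSet G, 0 ≤ t := by
  rintro t ⟨ι, _, Q, c, h, rfl⟩
  exact Finset.sum_nonneg fun i _ => h.nonneg i

theorem fcSet_bdd {V : Type} (G : SimpleGraph V) : BddBelow (fcSet G) :=
  ⟨0, fun _ ht => fcSet_nonneg G _ ht⟩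

theorem fc_nonneg {V : Type} (G : SimpleGraph V) : 0 ≤ fc G :=
  Real.sInf_nonneg (fcSet_nonneg G)

theorem fc_le {V : Type} {G : SimpleGraph V} {ι : Type} [Fintype ι] {Q : ι → Set V}
    {c : ι → ℝ} (h : IsFC G ι Q c) : fc G ≤ ∑ i, c i :=
  csInf_le (fcSet_bdd G) ⟨ι, inferInstance, Q, c, h, rfl⟩

theorem fcSet_of_coLe {V W : Type} {G : SimpleGraph V} {H : SimpleGraph W} (h : CoLe G H) {t : ℝ}
    (ht : t ∈ fcSet H) : t ∈ fcSet G := by
  obtain ⟨f, hf⟩ := h
  rw [isCohom_iff] at hf
  obtain ⟨ι, _, Q, c, hc, rfl⟩ := ht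
  refine ⟨ι, inferInstance, fun i => f ⁻¹' (Q i), c, ⟨hc.nonneg, ?_, ?_⟩, rfl⟩
  · intro i u hu v hv huv
    exact hc.clique i _ hu _ hv (hf u v huv)
  · intro v
    exact hc.cover (f v)

theorem fcSet_bot (n : ℕ) : (n : ℝ) ∈ fcSet (⊥ : SimpleGraph (Fin n)) := by
  refine ⟨Fin n, inferInstance, fun i => {i}, fun _ => 1, ⟨fun _ => zero_le_one, ?_, ?_⟩, ?_⟩
  · intro i u hu v hv huv
    rw [sep_bot] at huv
    exact huv (by rw [mem_singleton_iff] at hu hv; rw [hu, hv])
  · intro v
    rw [Finset.sum_eq_single v]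
    · simp
    · intro i _ hi
      simp [hi.symm]
    · intro h
      exact absurd (Finset.mem_univ v) h
  · simp

theorem fcSet_nonempty (A : GInf) : (fcSet A.G).Nonempty := by
  obtain ⟨n, hn⟩ := A.cover
  exact ⟨n, fcSet_of_coLe hn (fcSet_bot n)⟩

theorem exists_fc {V : Type} {G : SimpleGraph V} (hne : (fcSet G).Nonempty) {t : ℝ}
    (ht : fc G < t) :
    ∃ (ι : Type) (_ : Fintype ι) (Q : ι → Set V) (c : ι → ℝ), IsFC G ι Q c ∧ ∑ i, c i < t := by
  obtain ⟨s, ⟨ι, hι, Q, c, h, rfl⟩, hs⟩ := exists_lt_of_csInf_lt hne ht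
  exact ⟨ι, hι, Q, c, h, hs⟩

theorem fc_mono (A B : GInf) (h : CoLe A.G B.G) : fc A.G ≤ fc B.G :=
  csInf_le_csInf (fcSet_bdd A.G) (fcSet_nonempty B) fun _ ht => fcSet_of_coLe h ht

theorem fc_E (n : ℕ) : fc (GInf.E n).G = n := by
  apply le_antisymm (csInf_le (fcSet_bdd _) (fcSet_bot n))
  refine le_csInf (fcSet_nonempty (GInf.E n)) ?_
  rintro t ⟨ι, _, Q, c, h, rfl⟩
  have h1 : (n : ℝ) = ∑ _v : Fin n, (1 : ℝ) := by simp
  rw [h1]
  calc ∑ _v : Fin n, (1 : ℝ) ≤ ∑ v : Fin n, ∑ i, (Q i).indicator (fun _ => c i) v :=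
        Finset.sum_le_sum fun v _ => h.cover v
    _ = ∑ i, ∑ v : Fin n, (Q i).indicator (fun _ => c i) v := Finset.sum_comm
    _ ≤ ∑ i, c i := by
        refine Finset.sum_le_sum fun i _ => ?_
        by_cases hne : ∃ v, v ∈ Q i
        · obtain ⟨v, hv⟩ := hne
          rw [Finset.sum_eq_single v]
          · rw [indicator_of_mem hv]
          · intro u _ huv
            refine indicator_of_notMem (fun hu => ?_) _
            exact h.clique i u hu v hv ((sep_bot u v).2 huv)
          · intro hh
            exact absurd (Finset.mem_univ v) hh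
        · refine le_trans (le_of_eq ?_) (h.nonneg i)
          refine Finset.sum_eq_zero fun v _ => indicator_of_notMem (fun hv => hne ⟨v, hv⟩) _

theorem sep_inl {V W : Type} {G : SimpleGraph V} {H : SimpleGraph W} (u v : V) :
    Sep (G ⊕g H) (Sum.inl u) (Sum.inl v) ↔ Sep G u v := by
  unfold Sep
  rw [SimpleGraph.sum_adj_inl, Sum.inl_injective.ne_iff]

theorem sep_inr {V W : Type} {G : SimpleGraph V} {H : SimpleGraph W} (u v : W) :
    Sep (G ⊕g H) (Sum.inr u) (Sum.inr v) ↔ Sep H u v := by
  unfold Sep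
  rw [SimpleGraph.sum_adj_inr, Sum.inr_injective.ne_iff]

theorem sep_inl_inr {V W : Type} (G : SimpleGraph V) (H : SimpleGraph W) (u : V) (v : W) :
    Sep (G ⊕g H) (Sum.inl u) (Sum.inr v) :=
  ⟨Sum.inl_ne_inr, fun h => by simp at h⟩

theorem fc_add_aux {V W : Type} (G : SimpleGraph V) (H : SimpleGraph W)
    (hG : (fcSet G).Nonempty) (hH : (fcSet H).Nonempty) (hS : (fcSet (G ⊕g H)).Nonempty) :
    fc (G ⊕g H) = fc G + fc H := by
  classical
  apply le_antisymm
  · -- union of covers
    refine le_of_forall_pos_le_add fun ε hε => ?_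
    obtain ⟨ι, _, Q, c, h, hs⟩ := exists_fc hG (t := fc G + ε / 2) (by linarith)
    obtain ⟨κ, _, R, d, h', hs'⟩ := exists_fc hH (t := fc H + ε / 2) (by linarith)
    have hfc : IsFC (G ⊕g H) (ι ⊕ κ)
        (Sum.elim (fun i => (Sum.inl '' (Q i) : Set (V ⊕ W)))
          (fun k => (Sum.inr '' (R k) : Set (V ⊕ W)))) (Sum.elim c d) := by
      refine ⟨?_, ?_, ?_⟩
      · rintro (i | k)
        · exact h.nonneg i
        · exact h'.nonneg k
      · rintro (i | k)
        · rintro _ ⟨u, hu, rfl⟩ _ ⟨v, hv, rfl⟩ hh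
          exact h.clique i u hu v hv ((sep_inl u v).1 hh)
        · rintro _ ⟨u, hu, rfl⟩ _ ⟨v, hv, rfl⟩ hh
          exact h'.clique k u hu v hv ((sep_inr u v).1 hh)
      · rintro (v | v)
        · rw [Fintype.sum_sum_type]
          have h2 : ∀ k : κ, 0 ≤ ((Sum.elim (fun i => (Sum.inl '' (Q i) : Set (V ⊕ W)))
              (fun k => (Sum.inr '' (R k) : Set (V ⊕ W)))) (Sum.inr k)).indicator
              (fun _ => (Sum.elim c d : ι ⊕ κ → ℝ) (Sum.inr k)) (Sum.inl v) := fun k =>
            indicator_nonneg (fun _ _ => h'.nonneg k) _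
          refine (h.cover v).trans ?_
          refine le_trans (le_of_eq ?_) (le_add_of_nonneg_right (Finset.sum_nonneg fun k _ => h2 k))
          refine Finset.sum_congr rfl fun i _ => ?_
          by_cases hv : v ∈ Q i
          · rw [indicator_of_mem hv]
            exact (indicator_of_mem (mem_image_of_mem (Sum.inl : V → V ⊕ W) hv) (fun _ => c i)).symm
          · rw [indicator_of_notMem hv]
            refine (indicator_of_notMem ?_ _).symm
            rintro ⟨u, hu, huv⟩
            exact hv (Sum.inl_injective huv ▸ hu)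
        · rw [Fintype.sum_sum_type]
          have h2 : ∀ i : ι, 0 ≤ ((Sum.elim (fun i => (Sum.inl '' (Q i) : Set (V ⊕ W)))
              (fun k => (Sum.inr '' (R k) : Set (V ⊕ W)))) (Sum.inl i)).indicator
              (fun _ => (Sum.elim c d : ι ⊕ κ → ℝ) (Sum.inl i)) (Sum.inr v) := fun i =>
            indicator_nonneg (fun _ _ => h.nonneg i) _
          refine (h'.cover v).trans ?_
          refine le_trans (le_of_eq ?_) (le_add_of_nonneg_left (Finset.sum_nonneg fun k _ => h2 k))
          refine Finset.sum_congr rfl fun i _ => ?_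
          by_cases hv : v ∈ R i
          · rw [indicator_of_mem hv]
            exact (indicator_of_mem (mem_image_of_mem (Sum.inr : W → V ⊕ W) hv) (fun _ => d i)).symm
          · rw [indicator_of_notMem hv]
            refine (indicator_of_notMem ?_ _).symm
            rintro ⟨u, hu, huv⟩
            exact hv (Sum.inr_injective huv ▸ hu)
    have := fc_le hfc
    rw [Fintype.sum_sum_type] at this
    simp only [Sum.elim_inl, Sum.elim_inr] at this
    linarith
  · refine le_csInf hS ?_
    rintro t ⟨ι, _, Q, c, h, rfl⟩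
    -- the index sets of the cliques which meet the left, resp. the right part
    let c1 : ι → ℝ := fun i => if ∃ u, (Sum.inl u : V ⊕ W) ∈ Q i then c i else 0
    let c2 : ι → ℝ := fun i => if ∃ u, (Sum.inr u : V ⊕ W) ∈ Q i then c i else 0
    have h1 : IsFC G ι (fun i => Sum.inl ⁻¹' (Q i)) c1 := by
      refine ⟨?_, ?_, ?_⟩
      · intro i
        simp only [c1]
        split_ifs
        · exact h.nonneg i
        · exact le_rfl
      · intro i u hu v hv huv
        exact h.clique i _ hu _ hv ((sep_inl u v).2 huv)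
      · intro v
        refine (h.cover (Sum.inl v)).trans (le_of_eq (Finset.sum_congr rfl fun i _ => ?_))
        by_cases hv : (Sum.inl v : V ⊕ W) ∈ Q i
        · rw [indicator_of_mem hv, indicator_of_mem (show v ∈ Sum.inl ⁻¹' (Q i) from hv)]
          simp only [c1]
          rw [if_pos ⟨v, hv⟩]
        · rw [indicator_of_notMem hv, indicator_of_notMem (show v ∉ Sum.inl ⁻¹' (Q i) from hv)]
    have h2 : IsFC H ι (fun i => Sum.inr ⁻¹' (Q i)) c2 := by
      refine ⟨?_, ?_, ?_⟩
      · intro i
        simp only [c2]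
        split_ifs
        · exact h.nonneg i
        · exact le_rfl
      · intro i u hu v hv huv
        exact h.clique i _ hu _ hv ((sep_inr u v).2 huv)
      · intro v
        refine (h.cover (Sum.inr v)).trans (le_of_eq (Finset.sum_congr rfl fun i _ => ?_))
        by_cases hv : (Sum.inr v : V ⊕ W) ∈ Q i
        · rw [indicator_of_mem hv, indicator_of_mem (show v ∈ Sum.inr ⁻¹' (Q i) from hv)]
          simp only [c2]
          rw [if_pos ⟨v, hv⟩]
        · rw [indicator_of_notMem hv, indicator_of_notMem (show v ∉ Sum.inr ⁻¹' (Q i) from hv)]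
    refine (add_le_add (fc_le h1) (fc_le h2)).trans ?_
    rw [← Finset.sum_add_distrib]
    refine Finset.sum_le_sum fun i _ => ?_
    simp only [c1, c2]
    have hc := h.nonneg i
    by_cases ha : ∃ u, (Sum.inl u : V ⊕ W) ∈ Q i
    · have hb : ¬ ∃ u, (Sum.inr u : V ⊕ W) ∈ Q i := by
        rintro ⟨u, hu⟩
        obtain ⟨v, hv⟩ := ha
        exact h.clique i _ hv _ hu (sep_inl_inr G H v u)
      rw [if_pos ha, if_neg hb, add_zero]
    · rw [if_neg ha, zero_add]
      split_ifs
      · exact le_rfl
      · exact hc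

theorem fc_add (A B : GInf) : fc (A.sum B).G = fc A.G + fc B.G :=
  fc_add_aux A.G B.G (fcSet_nonempty A) (fcSet_nonempty B) (fcSet_nonempty (A.sum B))

theorem fc_pos {V : Type} {G : SimpleGraph V} (hG : (fcSet G).Nonempty) (v : V) : 1 ≤ fc G := by
  refine le_csInf hG ?_
  rintro t ⟨ι, _, Q, c, h, rfl⟩
  refine (h.cover v).trans (Finset.sum_le_sum fun i _ => ?_)
  exact indicator_le_self' (fun _ _ => h.nonneg i) v

theorem fc_mul_aux {V W : Type} (G : SimpleGraph V) (H : SimpleGraph W)
    (hG : (fcSet G).Nonempty) (hH : (fcSet H).Nonempty) (hS : (fcSet (strongProd G H)).Nonempty) :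
    fc (strongProd G H) = fc G * fc H := by
  classical
  apply le_antisymm
  · -- products of covers
    have key : ∀ a b : ℝ, fc G < a → fc H < b → fc (strongProd G H) ≤ a * b := by
      intro a b ha hb
      obtain ⟨ι, _, Q, c, h, hs⟩ := exists_fc hG ha
      obtain ⟨κ, _, R, d, h', hs'⟩ := exists_fc hH hb
      have hfc : IsFC (strongProd G H) (ι × κ) (fun p => Q p.1 ×ˢ R p.2)
          (fun p => c p.1 * d p.2) := by
        refine ⟨fun p => mul_nonneg (h.nonneg _) (h'.nonneg _), ?_, ?_⟩
        · intro p u hu v hv huv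
          rcases (sep_strong G H u v).1 huv with h3 | h3
          · exact h.clique p.1 _ hu.1 _ hv.1 h3
          · exact h'.clique p.2 _ hu.2 _ hv.2 h3
        · intro v
          have e1 : ∑ p : ι × κ, (Q p.1 ×ˢ R p.2).indicator (fun _ => c p.1 * d p.2) v =
              (∑ i, (Q i).indicator (fun _ => c i) v.1) *
                ∑ k, (R k).indicator (fun _ => d k) v.2 := by
            rw [Finset.sum_mul_sum, Fintype.sum_prod_type]
            refine Finset.sum_congr rfl fun i _ => Finset.sum_congr rfl fun k _ => ?_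
            by_cases h1 : v.1 ∈ Q i
            · by_cases h2 : v.2 ∈ R k
              · rw [indicator_of_mem h1, indicator_of_mem h2, indicator_of_mem (mk_mem_prod h1 h2)]
              · rw [indicator_of_mem h1, indicator_of_notMem h2, mul_zero,
                  indicator_of_notMem (fun h4 => h2 h4.2)]
            · rw [indicator_of_notMem h1, zero_mul, indicator_of_notMem (fun h4 => h1 h4.1)]
          rw [e1]
          exact one_le_mul_of_one_le_of_one_le (h.cover _) (h'.cover _)
      have h5 := fc_le hfc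
      have e2 : ∑ p : ι × κ, c p.1 * d p.2 = (∑ i, c i) * ∑ k, d k := by
        rw [Finset.sum_mul_sum, Fintype.sum_prod_type]
      rw [e2] at h5
      refine h5.trans ?_
      exact mul_le_mul hs.le hs'.le (Finset.sum_nonneg fun k _ => h'.nonneg k)
        ((fc_nonneg _).trans ha.le)
    have hlim : Tendsto (fun ε : ℝ => (fc G + ε) * (fc H + ε)) (𝓝[>] 0)
        (𝓝 ((fc G + 0) * (fc H + 0))) := by
      have : Continuous fun ε : ℝ => (fc G + ε) * (fc H + ε) := by fun_prop
      exact (this.tendsto 0).mono_left inf_le_left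
    rw [add_zero, add_zero] at hlim
    refine ge_of_tendsto hlim ?_
    filter_upwards [self_mem_nhdsWithin] with ε hε
    have hε' : (0 : ℝ) < ε := hε
    exact key _ _ (by linarith) (by linarith)
  · refine le_csInf hS ?_
    rintro t ⟨ι, _, R, c, h, rfl⟩
    have hnn : 0 ≤ ∑ i, c i := Finset.sum_nonneg fun i _ => h.nonneg i
    by_cases hB : Nonempty W
    · obtain ⟨w0⟩ := hB
      have hBpos : 0 < fc H := lt_of_lt_of_le one_pos (fc_pos hH w0)
      have hA : IsFC G ι (fun i => Prod.fst '' (R i)) (fun i => c i / fc H) := by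
        refine ⟨fun i => div_nonneg (h.nonneg i) hBpos.le, ?_, ?_⟩
        · rintro i _ ⟨u, hu, rfl⟩ _ ⟨v, hv, rfl⟩ huv
          exact h.clique i u hu v hv ((sep_strong G H u v).2 (Or.inl huv))
        · intro g
          have hBc : IsFC H ι (fun i => Prod.snd '' (R i))
              (fun i => (Prod.fst '' (R i)).indicator (fun _ => c i) g) := by
            refine ⟨fun i => indicator_nonneg (fun _ _ => h.nonneg i) _, ?_, ?_⟩
            · rintro i _ ⟨u, hu, rfl⟩ _ ⟨v, hv, rfl⟩ huv
              exact h.clique i u hu v hv ((sep_strong G H u v).2 (Or.inr huv))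
            · intro w
              refine (h.cover (g, w)).trans (Finset.sum_le_sum fun i _ => ?_)
              by_cases hm : ((g, w) : V × W) ∈ R i
              · rw [indicator_of_mem hm, indicator_of_mem (mem_image_of_mem Prod.snd hm),
                  indicator_of_mem (mem_image_of_mem Prod.fst hm)]
              · rw [indicator_of_notMem hm]
                exact indicator_nonneg (fun _ _ => indicator_nonneg (fun _ _ => h.nonneg i) _) _
          have h6 := fc_le hBc
          have e3 : ∑ i, (Prod.fst '' (R i)).indicator (fun _ => c i / fc H) g =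
              (∑ i, (Prod.fst '' (R i)).indicator (fun _ => c i) g) / fc H := by
            rw [Finset.sum_div]
            refine Finset.sum_congr rfl fun i _ => ?_
            by_cases hm : g ∈ Prod.fst '' (R i)
            · rw [indicator_of_mem hm, indicator_of_mem hm]
            · rw [indicator_of_notMem hm, indicator_of_notMem hm, zero_div]
          rw [e3, le_div_iff₀ hBpos, one_mul]
          exact h6
      have h7 := fc_le hA
      rw [← Finset.sum_div, le_div_iff₀ hBpos] at h7
      exact h7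
    · have h0 : fc H ≤ 0 := by
        refine csInf_le (fcSet_bdd _) ⟨Fin 0, inferInstance, fun _ => ∅, fun _ => 0,
          ⟨fun _ => le_rfl, fun i => i.elim0, fun v => absurd ⟨v⟩ hB⟩, by simp⟩
      have h1 : fc H = 0 := le_antisymm h0 (fc_nonneg _)
      rw [h1, mul_zero]
      exact hnn

theorem fc_mul (A B : GInf) : fc (A.prod B).G = fc A.G * fc B.G :=
  fc_mul_aux A.G B.G (fcSet_nonempty A) (fcSet_nonempty B) (fcSet_nonempty (A.prod B))

/-- The finite fractional clique cover number as a point of the asymptotic spectrum. -/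
noncomputable def fcPoint : Spectrum where
  F A := fc A.G
  nonneg A := fc_nonneg A.G
  add := fc_add
  mul := fc_mul
  norm := fc_E
  mono := fc_mono

end Pool.Agent.AsympSpec
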