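import Pool.Agent.Lib_MP_d03f2b_co.Defs

/-!
# The fractional packing number (of finite subgraphs) is a spectral point
-/

set_option autoImplicit false

open Set Filter Topology

namespace Pool.Agent.AsympSpec

/-- `w` restricted to the finite set `s` is a fractional packing: every clique inside `s` has
weight at most one. -/
structure IsFP {V : Type} (G : SimpleGraph V) (s : Finset V) (w : V → ℝ) : Prop where
  nonneg : ∀ v, 0 ≤ w v
  le_one : ∀ T : Finset V, T ⊆ s → (∀ u ∈ T, ∀ v ∈ T, ¬ Sep G u v) → ∑ v ∈ T, w v ≤ 1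

/-- the values of fractional packings -/
def fpSet {V : Type} (G : SimpleGraph V) : Set ℝ :=
  {t | ∃ (s : Finset V) (w : V → ℝ), IsFP G s w ∧ t = ∑ v ∈ s, w v}

/-- the fractional packing number -/
noncomputable def fp {V : Type} (G : SimpleGraph V) : ℝ := sSup (fpSet G)

theorem fpSet_nonneg {V : Type} (G : SimpleGraph V) : ∀ t ∈ fpSet G, 0 ≤ t := by
  rintro t ⟨s, w, h, rfl⟩
  exact Finset.sum_nonneg fun v _ => h.nonneg v

theorem fpSet_zero {V : Type} (G : SimpleGraph V) : (0 : ℝ) ∈ fpSet G :=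
  ⟨∅, fun _ => 0, ⟨fun _ => le_rfl, fun _ _ _ => by simp⟩, by simp⟩

theorem fpSet_nonempty {V : Type} (G : SimpleGraph V) : (fpSet G).Nonempty := ⟨0, fpSet_zero G⟩

theorem fpSet_le {V : Type} (G : SimpleGraph V) (n : ℕ)
    (h : CoLe G (⊥ : SimpleGraph (Fin n))) : ∀ t ∈ fpSet G, t ≤ n := by
  classical
  obtain ⟨f, hf⟩ := h
  rw [isCohom_iff] at hf
  rintro t ⟨s, w, hw, rfl⟩
  have e1 : ∑ v ∈ s, w v = ∑ i : Fin n, ∑ v ∈ s with f v = i, w v :=
    (Finset.sum_fiberwise s f w).symm
  rw [e1]
  calc ∑ i : Fin n, ∑ v ∈ s with f v = i, w v ≤ ∑ _i : Fin n, (1 : ℝ) := by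
        refine Finset.sum_le_sum fun i _ => hw.le_one _ (Finset.filter_subset _ _) ?_
        intro u hu v hv huv
        have h1 := hf u v huv
        rw [sep_bot] at h1
        rw [Finset.mem_filter] at hu hv
        exact h1 (hu.2.trans hv.2.symm)
    _ = n := by simp

theorem fpSet_bdd (A : GInf) : BddAbove (fpSet A.G) := by
  obtain ⟨n, hn⟩ := A.cover
  exact ⟨n, fun t ht => fpSet_le A.G n hn t ht⟩

theorem fp_nonneg {V : Type} (G : SimpleGraph V) : 0 ≤ fp G :=
  Real.sSup_nonneg (fpSet_nonneg G)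

theorem le_fp {V : Type} {G : SimpleGraph V} (hb : BddAbove (fpSet G)) {s : Finset V} {w : V → ℝ}
    (h : IsFP G s w) : ∑ v ∈ s, w v ≤ fp G :=
  le_csSup hb ⟨s, w, h, rfl⟩

theorem fpSet_of_coLe {V W : Type} {G : SimpleGraph V} {H : SimpleGraph W} (h : CoLe G H) {t : ℝ}
    (ht : t ∈ fpSet G) : t ∈ fpSet H := by
  classical
  obtain ⟨f, hf⟩ := h
  rw [isCohom_iff] at hf
  obtain ⟨s, w, hw, rfl⟩ := ht
  refine ⟨s.image f, fun y => ∑ v ∈ s with f v = y, w v, ⟨?_, ?_⟩, ?_⟩
  · intro y
    exact Finset.sum_nonneg fun v _ => hw.nonneg v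
  · intro T hT hTc
    have e1 : ∑ y ∈ T, ∑ v ∈ s with f v = y, w v = ∑ v ∈ s with f v ∈ T, w v := by
      have e2 : ∑ v ∈ s with f v ∈ T, w v =
          ∑ y ∈ T, ∑ v ∈ (s.filter fun v => f v ∈ T) with f v = y, w v := by
        refine (Finset.sum_fiberwise_of_maps_to (fun v hv => ?_) w).symm
        exact (Finset.mem_filter.1 hv).2
      rw [e2]
      refine Finset.sum_congr rfl fun y hy => Finset.sum_congr ?_ fun _ _ => rfl
      ext v
      simp only [Finset.mem_filter]
      constructor
      · rintro ⟨h1, h2⟩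
        exact ⟨⟨h1, h2 ▸ hy⟩, h2⟩
      · rintro ⟨⟨h1, _⟩, h2⟩
        exact ⟨h1, h2⟩
    rw [e1]
    refine hw.le_one _ (Finset.filter_subset _ _) ?_
    intro u hu v hv huv
    exact hTc _ (Finset.mem_filter.1 hu).2 _ (Finset.mem_filter.1 hv).2 (hf u v huv)
  · exact (Finset.sum_fiberwise_of_maps_to (fun v hv => Finset.mem_image_of_mem f hv) w).symm

theorem fp_mono (A B : GInf) (h : CoLe A.G B.G) : fp A.G ≤ fp B.G :=
  csSup_le_csSup (fpSet_bdd B) (fpSet_nonempty A.G) fun _ ht => fpSet_of_coLe h ht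

theorem fpSet_bot (n : ℕ) : (n : ℝ) ∈ fpSet (⊥ : SimpleGraph (Fin n)) := by
  refine ⟨Finset.univ, fun _ => 1, ⟨fun _ => zero_le_one, ?_⟩, by simp⟩
  intro T _ hTc
  have h1 : T.card ≤ 1 := by
    rw [Finset.card_le_one]
    intro a ha b hb
    by_contra hab
    exact hTc a ha b hb ((sep_bot a b).2 hab)
  simp only [Finset.sum_const, nsmul_eq_mul, mul_one]
  exact_mod_cast h1

theorem fp_E (n : ℕ) : fp (GInf.E n).G = n :=
  le_antisymm (csSup_le (fpSet_nonempty _) (fpSet_le _ n (CoLe.refl _)))
    (le_csSup (fpSet_bdd (GInf.E n)) (fpSet_bot n))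

theorem sep_inl' {V W : Type} {G : SimpleGraph V} {H : SimpleGraph W} (u v : V) :
    Sep (G ⊕g H) (Sum.inl u) (Sum.inl v) ↔ Sep G u v := by
  unfold Sep
  rw [SimpleGraph.sum_adj_inl, Sum.inl_injective.ne_iff]

theorem sep_inr' {V W : Type} {G : SimpleGraph V} {H : SimpleGraph W} (u v : W) :
    Sep (G ⊕g H) (Sum.inr u) (Sum.inr v) ↔ Sep H u v := by
  unfold Sep
  rw [SimpleGraph.sum_adj_inr, Sum.inr_injective.ne_iff]

theorem sep_inl_inr' {V W : Type} (G : SimpleGraph V) (H : SimpleGraph W) (u : V) (v : W) :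
    Sep (G ⊕g H) (Sum.inl u) (Sum.inr v) :=
  ⟨Sum.inl_ne_inr, fun h => by simp at h⟩

theorem sum_split {V W : Type} (s : Finset (V ⊕ W)) (w : V ⊕ W → ℝ) :
    ∑ x ∈ s, w x = ∑ v ∈ s.toLeft, w (Sum.inl v) + ∑ v ∈ s.toRight, w (Sum.inr v) := by
  conv_lhs => rw [← Finset.toLeft_disjSum_toRight (u := s)]
  rw [Finset.sum_disjSum]

theorem fp_add_aux {V W : Type} (G : SimpleGraph V) (H : SimpleGraph W)
    (hG : BddAbove (fpSet G)) (hH : BddAbove (fpSet H)) (hS : BddAbove (fpSet (G ⊕g H))) :
    fp (G ⊕g H) = fp G + fp H := by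
  classical
  apply le_antisymm
  · refine csSup_le (fpSet_nonempty _) ?_
    rintro t ⟨s, w, h, rfl⟩
    rw [sum_split]
    refine add_le_add (le_fp hG (w := fun v => w (Sum.inl v)) ⟨fun v => h.nonneg _, ?_⟩)
      (le_fp hH (w := fun v => w (Sum.inr v)) ⟨fun v => h.nonneg _, ?_⟩)
    · intro T hT hTc
      have h1 := h.le_one (T.map Function.Embedding.inl) ?_ ?_
      · rw [Finset.sum_map] at h1
        exact h1
      · intro x hx
        obtain ⟨v, hv, rfl⟩ := Finset.mem_map.1 hx
        exact Finset.mem_toLeft.1 (hT hv)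
      · intro x hx y hy hxy
        obtain ⟨u, hu, rfl⟩ := Finset.mem_map.1 hx
        obtain ⟨v, hv, rfl⟩ := Finset.mem_map.1 hy
        exact hTc u hu v hv ((sep_inl' u v).1 hxy)
    · intro T hT hTc
      have h1 := h.le_one (T.map Function.Embedding.inr) ?_ ?_
      · rw [Finset.sum_map] at h1
        exact h1
      · intro x hx
        obtain ⟨v, hv, rfl⟩ := Finset.mem_map.1 hx
        exact Finset.mem_toRight.1 (hT hv)
      · intro x hx y hy hxy
        obtain ⟨u, hu, rfl⟩ := Finset.mem_map.1 hx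
        obtain ⟨v, hv, rfl⟩ := Finset.mem_map.1 hy
        exact hTc u hu v hv ((sep_inr' u v).1 hxy)
  · have key : ∀ t1 ∈ fpSet G, ∀ t2 ∈ fpSet H, t1 + t2 ≤ fp (G ⊕g H) := by
      rintro t1 ⟨s, w, h, rfl⟩ t2 ⟨s', w', h', rfl⟩
      have hf : IsFP (G ⊕g H) (s.disjSum s') (Sum.elim w w') := by
        refine ⟨?_, ?_⟩
        · rintro (v | v)
          · exact h.nonneg v
          · exact h'.nonneg v
        · intro T hT hTc
          rw [sum_split]
          have hl : T.toLeft ⊆ s := by
            intro v hv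
            have := hT (Finset.mem_toLeft.1 hv)
            simpa using this
          have hr : T.toRight ⊆ s' := by
            intro v hv
            have := hT (Finset.mem_toRight.1 hv)
            simpa using this
          by_cases hne : T.toLeft.Nonempty
          · have hem : T.toRight = ∅ := by
              rw [Finset.eq_empty_iff_forall_notMem]
              intro v hv
              obtain ⟨u, hu⟩ := hne
              exact hTc _ (Finset.mem_toLeft.1 hu) _ (Finset.mem_toRight.1 hv)
                (sep_inl_inr' G H u v)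
            rw [hem, Finset.sum_empty, add_zero]
            refine h.le_one _ hl ?_
            intro u hu v hv huv
            exact hTc _ (Finset.mem_toLeft.1 hu) _ (Finset.mem_toLeft.1 hv) ((sep_inl' u v).2 huv)
          · rw [Finset.not_nonempty_iff_eq_empty] at hne
            rw [hne, Finset.sum_empty, zero_add]
            refine h'.le_one _ hr ?_
            intro u hu v hv huv
            exact hTc _ (Finset.mem_toRight.1 hu) _ (Finset.mem_toRight.1 hv) ((sep_inr' u v).2 huv)
      have h1 := le_fp hS hf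
      rw [Finset.sum_disjSum] at h1
      exact h1
    have h1 : ∀ t2 ∈ fpSet H, fp G + t2 ≤ fp (G ⊕g H) := by
      intro t2 ht2
      have : fp G ≤ fp (G ⊕g H) - t2 :=
        csSup_le (fpSet_nonempty G) fun t1 ht1 => by linarith [key t1 ht1 t2 ht2]
      linarith
    have : fp H ≤ fp (G ⊕g H) - fp G :=
      csSup_le (fpSet_nonempty H) fun t2 ht2 => by linarith [h1 t2 ht2]
    linarith

theorem mul_csSup_le' {B : Set ℝ} (hB : B.Nonempty) {a P : ℝ} (ha : 0 ≤ a) (hP : 0 ≤ P)
    (h : ∀ b ∈ B, a * b ≤ P) : a * sSup B ≤ P := by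
  rcases ha.eq_or_lt with h0 | h0
  · rw [← h0, zero_mul]
    exact hP
  · have : sSup B ≤ P / a := csSup_le hB fun b hb => by
      rw [le_div_iff₀ h0, mul_comm]
      exact h b hb
    rw [le_div_iff₀ h0, mul_comm] at this
    exact this

theorem one_le_fp {V : Type} {G : SimpleGraph V} (hb : BddAbove (fpSet G)) (v : V) :
    1 ≤ fp G := by
  classical
  have h : IsFP G {v} (fun _ => 1) := by
    refine ⟨fun _ => zero_le_one, fun T hT _ => ?_⟩
    have h1 := Finset.card_le_card hT
    rw [Finset.card_singleton] at h1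
    simp only [Finset.sum_const, nsmul_eq_mul, mul_one]
    exact_mod_cast h1
  have := le_fp hb h
  simpa using this

theorem fp_mul_aux {V W : Type} (G : SimpleGraph V) (H : SimpleGraph W)
    (hG : BddAbove (fpSet G)) (hH : BddAbove (fpSet H)) (hS : BddAbove (fpSet (strongProd G H))) :
    fp (strongProd G H) = fp G * fp H := by
  classical
  apply le_antisymm
  · refine csSup_le (fpSet_nonempty _) ?_
    rintro t ⟨s, w, h, rfl⟩
    by_cases hW : Nonempty W
    · obtain ⟨w0⟩ := hW
      have hβ : 0 < fp H := lt_of_lt_of_le one_pos (one_le_fp hH w0)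
      set s1 := s.image Prod.fst with hs1
      set s2 := s.image Prod.snd with hs2
      let w' : V × W → ℝ := fun x => if x ∈ s then w x else 0
      have hw' : ∀ x, 0 ≤ w' x := by
        intro x
        simp only [w']
        split_ifs
        · exact h.nonneg x
        · exact le_rfl
      have hsub : s ⊆ s1 ×ˢ s2 := by
        intro x hx
        rw [Finset.mem_product]
        exact ⟨Finset.mem_image_of_mem _ hx, Finset.mem_image_of_mem _ hx⟩
      have hK : ∀ K : Finset V, K ⊆ s1 → (∀ u ∈ K, ∀ v ∈ K, ¬ Sep G u v) →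
          ∑ y ∈ s2, ∑ x ∈ K, w' (x, y) ≤ fp H := by
        intro K _ hKc
        refine le_fp hH (w := fun y => ∑ x ∈ K, w' (x, y))
          ⟨fun y => Finset.sum_nonneg fun x _ => hw' _, ?_⟩
        intro T _ hTc
        rw [Finset.sum_comm, ← Finset.sum_product (f := w'), Finset.sum_ite, Finset.sum_const_zero,
          add_zero]
        refine h.le_one _ (fun x hx => (Finset.mem_filter.1 hx).2) ?_
        intro u hu v hv huv
        rw [Finset.mem_filter, Finset.mem_product] at hu hv
        rcases (sep_strong G H u v).1 huv with h3 | h3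
        · exact hKc _ hu.1.1 _ hv.1.1 h3
        · exact hTc _ hu.1.2 _ hv.1.2 h3
      have hu : IsFP G s1 (fun x => (∑ y ∈ s2, w' (x, y)) / fp H) := by
        refine ⟨fun x => div_nonneg (Finset.sum_nonneg fun y _ => hw' _) hβ.le, ?_⟩
        intro K hKs hKc
        rw [← Finset.sum_div, div_le_one hβ, Finset.sum_comm]
        exact hK K hKs hKc
      have h1 := le_fp hG hu
      rw [← Finset.sum_div, div_le_iff₀ hβ] at h1
      refine le_trans (le_of_eq ?_) h1
      rw [← Finset.sum_product (f := w')]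
      have e1 : ∑ x ∈ s, w x = ∑ x ∈ s, w' x := by
        refine Finset.sum_congr rfl fun x hx => ?_
        simp only [w']
        rw [if_pos hx]
      rw [e1]
      refine Finset.sum_subset hsub fun x _ hx => ?_
      simp only [w']
      rw [if_neg hx]
    · have hs : s = ∅ := by
        rw [Finset.eq_empty_iff_forall_notMem]
        intro x _
        exact hW ⟨x.2⟩
      rw [hs, Finset.sum_empty]
      exact mul_nonneg (fp_nonneg G) (fp_nonneg H)
  · have key : ∀ t1 ∈ fpSet G, ∀ t2 ∈ fpSet H, t1 * t2 ≤ fp (strongProd G H) := by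
      rintro t1 ⟨s, w, h, rfl⟩ t2 ⟨s', w', h', rfl⟩
      have hf : IsFP (strongProd G H) (s ×ˢ s') (fun x => w x.1 * w' x.2) := by
        refine ⟨fun x => mul_nonneg (h.nonneg _) (h'.nonneg _), ?_⟩
        intro T hT hTc
        have h1 : T ⊆ T.image Prod.fst ×ˢ T.image Prod.snd := by
          intro x hx
          rw [Finset.mem_product]
          exact ⟨Finset.mem_image_of_mem _ hx, Finset.mem_image_of_mem _ hx⟩
        have h2 : ∑ x ∈ T.image Prod.fst, w x ≤ 1 := by
          refine h.le_one _ ?_ ?_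
          · intro x hx
            obtain ⟨y, hy, rfl⟩ := Finset.mem_image.1 hx
            exact (Finset.mem_product.1 (hT hy)).1
          · intro x hx y hy hxy
            obtain ⟨x', hx', rfl⟩ := Finset.mem_image.1 hx
            obtain ⟨y', hy', rfl⟩ := Finset.mem_image.1 hy
            exact hTc x' hx' y' hy' ((sep_strong G H x' y').2 (Or.inl hxy))
        have h3 : ∑ x ∈ T.image Prod.snd, w' x ≤ 1 := by
          refine h'.le_one _ ?_ ?_
          · intro x hx
            obtain ⟨y, hy, rfl⟩ := Finset.mem_image.1 hx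
            exact (Finset.mem_product.1 (hT hy)).2
          · intro x hx y hy hxy
            obtain ⟨x', hx', rfl⟩ := Finset.mem_image.1 hx
            obtain ⟨y', hy', rfl⟩ := Finset.mem_image.1 hy
            exact hTc x' hx' y' hy' ((sep_strong G H x' y').2 (Or.inr hxy))
        calc ∑ x ∈ T, w x.1 * w' x.2
            ≤ ∑ x ∈ T.image Prod.fst ×ˢ T.image Prod.snd, w x.1 * w' x.2 :=
              Finset.sum_le_sum_of_subset_of_nonneg h1
                fun x _ _ => mul_nonneg (h.nonneg _) (h'.nonneg _)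
          _ = (∑ x ∈ T.image Prod.fst, w x) * ∑ y ∈ T.image Prod.snd, w' y := by
              rw [Finset.sum_product, Finset.sum_mul_sum]
          _ ≤ 1 := mul_le_one₀ h2 (Finset.sum_nonneg fun x _ => h'.nonneg _) h3
      have h1 := le_fp hS hf
      rw [Finset.sum_product] at h1
      rw [Finset.sum_mul_sum]
      exact h1
    have hP := fp_nonneg (strongProd G H)
    have h1 : ∀ t1 ∈ fpSet G, t1 * fp H ≤ fp (strongProd G H) := fun t1 ht1 =>
      mul_csSup_le' (fpSet_nonempty H) (fpSet_nonneg G t1 ht1) hP (key t1 ht1)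
    have h2 := mul_csSup_le' (fpSet_nonempty G) (fp_nonneg H) hP (a := fp H)
      (fun t1 ht1 => by rw [mul_comm]; exact h1 t1 ht1)
    rw [mul_comm] at h2
    exact h2

/-- The fractional packing number as a point of the asymptotic spectrum. -/
noncomputable def fpPoint : Spectrum where
  F A := fp A.G
  nonneg A := fp_nonneg A.G
  add A B := fp_add_aux A.G B.G (fpSet_bdd A) (fpSet_bdd B) (fpSet_bdd (A.sum B))
  mul A B := fp_mul_aux A.G B.G (fpSet_bdd A) (fpSet_bdd B) (fpSet_bdd (A.prod B))
  norm := fp_E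
  mono := fp_mono

end Pool.Agent.AsympSpec
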