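import Pool.Agent.Lib_MP_d03f2b_co.FP

/-!
# If the fractional packing number is at most two, then the complement is bipartite
-/

set_option autoImplicit false

open Set Filter Topology

namespace Pool.Agent.AsympSpec

/-- An odd closed sequence of pairwise separated consecutive vertices gives a packing of
value larger than two. -/
theorem fp_odd {V : Type} (G : SimpleGraph V) (hb : BddAbove (fpSet G)) (k : ℕ) (hk : 1 ≤ k)
    (g : Fin (2 * k + 1) → V) (hg : ∀ i, Sep G (g i) (g (i + 1))) : 2 < fp G := by
  classical
  have hk0 : (0 : ℝ) < k := by exact_mod_cast hk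
  let s : Finset V := Finset.univ.image g
  let w : V → ℝ := fun v => ((Finset.univ.filter (fun i => g i = v)).card : ℝ) / k
  have hsum : ∀ T : Finset V, ∑ v ∈ T, w v =
      ((Finset.univ.filter (fun i => g i ∈ T)).card : ℝ) / k := by
    intro T
    have e1 : (Finset.univ.filter (fun i => g i ∈ T)).card =
        ∑ v ∈ T, (Finset.univ.filter (fun i => g i = v)).card := by
      rw [Finset.card_eq_sum_card_fiberwise (f := g) (t := T)]
      · refine Finset.sum_congr rfl fun v hv => ?_
        congr 1
        ext i
        simp only [Finset.mem_filter, Finset.mem_univ, true_and]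
        constructor
        · rintro ⟨_, h⟩
          exact h
        · rintro h
          exact ⟨h ▸ hv, h⟩
      · intro i hi
        simpa using hi
    rw [e1]
    push_cast
    rw [Finset.sum_div]
  have hfp : IsFP G s w := by
    refine ⟨fun v => div_nonneg (Nat.cast_nonneg _) hk0.le, ?_⟩
    intro T _ hTc
    rw [hsum T, div_le_one hk0]
    set I := Finset.univ.filter (fun i => g i ∈ T) with hI
    have hdisj : Disjoint I (I.image (fun i => i + 1)) := by
      rw [Finset.disjoint_left]
      intro i hi hi'
      obtain ⟨j, hj, rfl⟩ := Finset.mem_image.1 hi'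
      rw [hI, Finset.mem_filter] at hi hj
      exact hTc _ hj.2 _ hi.2 (hg j)
    have hinj : (I.image (fun i => i + 1)).card = I.card :=
      Finset.card_image_of_injective _ (add_left_injective 1)
    have h1 := Finset.card_le_univ (I ∪ I.image (fun i => i + 1))
    rw [Finset.card_union_of_disjoint hdisj, hinj, Fintype.card_fin] at h1
    have h2 : I.card ≤ k := by omega
    exact_mod_cast h2
  have h1 := le_fp hb hfp
  rw [hsum s] at h1
  have e2 : (Finset.univ.filter (fun i => g i ∈ s)) = Finset.univ := by
    ext i
    simp [s]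
  rw [e2, Finset.card_univ, Fintype.card_fin] at h1
  refine lt_of_lt_of_le ?_ h1
  rw [lt_div_iff₀ hk0]
  push_cast
  linarith

theorem colorable_of_fp {V : Type} (G : SimpleGraph V) (hb : BddAbove (fpSet G))
    (h : fp G ≤ 2) : Gᶜ.Colorable 2 := by
  rw [SimpleGraph.two_colorable_iff_forall_loop_even]
  intro u p
  by_contra hodd
  rw [Nat.not_even_iff_odd] at hodd
  obtain ⟨k, hk⟩ := hodd
  have hk1 : 1 ≤ k := by
    by_contra hk0
    have hk0' : k = 0 := by omega
    subst hk0'
    have h1 : p.length = 1 := by omega
    have h2 := p.adj_getVert_succ (i := 0) (by omega)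
    rw [SimpleGraph.Walk.getVert_zero, zero_add, ← h1, SimpleGraph.Walk.getVert_length] at h2
    exact h2.ne rfl
  have := fp_odd G hb k hk1 (fun i => p.getVert i) (by
    intro i
    have h3 : (Gᶜ).Adj (p.getVert i) (p.getVert (i + 1 : ℕ)) :=
      p.adj_getVert_succ (by omega)
    have h4 : p.getVert ((i + 1 : Fin (2 * k + 1)) : ℕ) = p.getVert (i + 1 : ℕ) := by
      rw [Fin.val_add_one]
      split_ifs with hlast
      · rw [hlast, Fin.val_last, ← hk, SimpleGraph.Walk.getVert_length,
          SimpleGraph.Walk.getVert_zero]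
      · rfl
    rw [h4]
    rw [SimpleGraph.compl_adj] at h3
    exact h3)
  linarith

theorem coLe_two_of_fp (H : GInf) (h : fp H.G ≤ 2) : CoLe H.G (GInf.E 2).G := by
  obtain ⟨c⟩ := colorable_of_fp H.G (fpSet_bdd H) h
  refine ⟨c, ?_⟩
  intro u v h1 h2
  have h3 : H.Gᶜ.Adj u v := by
    rw [SimpleGraph.compl_adj]
    exact ⟨h1, h2⟩
  exact ⟨c.valid h3, fun h4 => h4⟩

end Pool.Agent.AsympSpec
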