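import Pool.Agent.Lib_MP_d03f2b_co.Defs

/-!
# Powers, and the comparison of two graphs through finitely many partial cohomomorphisms
-/

set_option autoImplicit false

open Set Filter Topology

namespace Pool.Agent.AsympSpec

/-- strong powers in the class -/
def GInf.pow (A : GInf) : ℕ → GInf
  | 0 => GInf.E 1
  | n + 1 => A.prod (A.pow n)

theorem Spectrum.pow (φ : Spectrum) (A : GInf) (n : ℕ) : φ.F (A.pow n) = φ.F A ^ n := by
  induction n with
  | zero =>
    have := φ.norm 1
    simp only [GInf.pow, pow_zero]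
    rw [this]
    simp
  | succ n ih =>
    simp only [GInf.pow]
    rw [φ.mul, ih, pow_succ, mul_comm]

/-- the strong power as a graph on functions -/
def powG {V : Type} (G : SimpleGraph V) (n : ℕ) : SimpleGraph (Fin n → V) where
  Adj x y := x ≠ y ∧ ∀ i, x i = y i ∨ G.Adj (x i) (y i)
  symm := ⟨fun _ _ h => ⟨h.1.symm, fun i => (h.2 i).imp Eq.symm (fun h => h.symm)⟩⟩
  loopless := ⟨fun _ h => h.1 rfl⟩

theorem sep_powG {V : Type} (G : SimpleGraph V) (n : ℕ) (x y : Fin n → V) :
    Sep (powG G n) x y ↔ ∃ i, Sep G (x i) (y i) := by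
  constructor
  · rintro ⟨h1, h2⟩
    by_contra hcon
    push Not at hcon
    refine h2 ⟨h1, fun i => ?_⟩
    by_contra h3
    rw [not_or] at h3
    exact hcon i h3
  · rintro ⟨i, h1, h2⟩
    refine ⟨fun h => h1 (by rw [h]), fun h => ?_⟩
    rcases h.2 i with h3 | h3
    · exact h1 h3
    · exact h2 h3

theorem pow_le_powG (A : GInf) (n : ℕ) : CoLe (A.pow n).G (powG A.G n) := by
  induction n with
  | zero =>
    refine ⟨fun _ i => i.elim0, ?_⟩
    intro u v h _
    exact absurd (Subsingleton.elim (α := Fin 1) u v) h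
  | succ n ih =>
    obtain ⟨f, hf⟩ := ih
    rw [isCohom_iff] at hf
    refine ⟨fun x => Fin.cons x.1 (f x.2), ?_⟩
    rw [isCohom_iff]
    intro x y hxy
    rw [sep_powG]
    rcases (sep_strong A.G (A.pow n).G x y).1 hxy with h | h
    · exact ⟨0, by simpa using h⟩
    · obtain ⟨i, hi⟩ := (sep_powG _ _ _ _).1 (hf _ _ h)
      exact ⟨i.succ, by simpa using hi⟩

theorem powG_le_pow (A : GInf) (n : ℕ) : CoLe (powG A.G n) (A.pow n).G := by
  induction n with
  | zero =>
    refine ⟨fun _ => (0 : Fin 1), ?_⟩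
    rw [isCohom_iff]
    intro x y hxy
    obtain ⟨i, _⟩ := (sep_powG _ _ _ _).1 hxy
    exact i.elim0
  | succ n ih =>
    obtain ⟨g, hg⟩ := ih
    rw [isCohom_iff] at hg
    refine ⟨fun x => (x 0, g (Fin.tail x)), ?_⟩
    rw [isCohom_iff]
    intro x y hxy
    obtain ⟨i, hi⟩ := (sep_powG _ _ _ _).1 hxy
    refine (sep_strong A.G (A.pow n).G _ _).2 ?_
    induction i using Fin.cases with
    | zero => exact Or.inl hi
    | succ i =>
      refine Or.inr (hg _ _ ?_)
      rw [sep_powG]
      exact ⟨i, hi⟩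

/-- If finitely many partial cohomomorphisms, used coordinatewise, cover the `N`-th power, then
the `N`-th power of `A` is below the disjoint union of `T` copies of the `N`-th power of `B`. -/
theorem pow_le_of_cover (A B : GInf) {J : Type} (S : J → Set A.V) (f : J → A.V → B.V)
    (hf : ∀ j, ∀ u ∈ S j, ∀ v ∈ S j, Sep A.G u v → Sep B.G (f j u) (f j v))
    (N T : ℕ) (τ : Fin T → Fin N → J) (hτ : ∀ x : Fin N → A.V, ∃ t, ∀ i, x i ∈ S (τ t i)) :
    CoLe (A.pow N).G ((GInf.E T).prod (B.pow N)).G := by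
  classical
  choose t ht using hτ
  obtain ⟨g, hg⟩ := powG_le_pow B N
  rw [isCohom_iff] at hg
  refine (pow_le_powG A N).trans ⟨fun x => (t x, g (fun i => f (τ (t x) i) (x i))), ?_⟩
  rw [isCohom_iff]
  intro x y hxy
  refine (sep_strong (GInf.E T).G (B.pow N).G _ _).2 ?_
  by_cases h : t x = t y
  · right
    refine hg _ _ ?_
    obtain ⟨i, hi⟩ := (sep_powG _ _ _ _).1 hxy
    rw [sep_powG]
    refine ⟨i, ?_⟩
    rw [h]
    refine hf _ _ ?_ _ (ht y i) hi
    rw [← h]
    exact ht x i
  · left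
    exact (sep_bot _ _).2 h

theorem greedy {U Ω : Type} [Fintype Ω] [Nonempty Ω] (R : U → Ω → Prop)
    [∀ u ω, Decidable (R u ω)] (p : ℝ)
    (hp1 : p ≤ 1)
    (h : ∀ u, p * Fintype.card Ω ≤ ((Finset.univ.filter (R u)).card : ℝ)) (s : Finset U) (T : ℕ) :
    ∃ ω : Fin T → Ω, ((s.filter (fun u => ∀ t, ¬ R u (ω t))).card : ℝ) ≤ (1 - p) ^ T * s.card := by
  classical
  induction T with
  | zero =>
    refine ⟨fun t => t.elim0, ?_⟩
    simp only [pow_zero, one_mul]
    exact_mod_cast Finset.card_filter_le _ _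
  | succ T ih =>
    obtain ⟨ω, hω⟩ := ih
    set s' := s.filter (fun u => ∀ t, ¬ R u (ω t)) with hs'
    have hΩ : (0 : ℝ) < Fintype.card Ω := by exact_mod_cast Fintype.card_pos
    -- averaging
    have h1 : ∑ _o : Ω, p * (s'.card : ℝ) ≤ ∑ o : Ω, ((s'.filter (fun u => R u o)).card : ℝ) := by
      have e1 : ∑ o : Ω, ((s'.filter (fun u => R u o)).card : ℝ) =
          ∑ u ∈ s', ((Finset.univ.filter (R u)).card : ℝ) := by
        simp only [Finset.card_filter]
        push_cast
        rw [Finset.sum_comm]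
      rw [e1, Finset.sum_const, Finset.card_univ, nsmul_eq_mul]
      calc (Fintype.card Ω : ℝ) * (p * (s'.card : ℝ)) = ∑ _u ∈ s', p * (Fintype.card Ω : ℝ) := by
            rw [Finset.sum_const, nsmul_eq_mul]; ring
        _ ≤ _ := Finset.sum_le_sum fun u _ => h u
    obtain ⟨o, _, ho⟩ := Finset.exists_le_of_sum_le (Finset.univ_nonempty) h1
    refine ⟨Fin.cons o ω, ?_⟩
    have e2 : s.filter (fun u => ∀ t, ¬ R u ((Fin.cons o ω : Fin (T + 1) → Ω) t)) =
        s'.filter (fun u => ¬ R u o) := by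
      ext u
      simp only [hs', Finset.mem_filter, Fin.forall_fin_succ, Fin.cons_zero, Fin.cons_succ]
      tauto
    rw [e2]
    have e3 : ((s'.filter (fun u => R u o)).card : ℝ) + ((s'.filter (fun u => ¬ R u o)).card : ℝ) =
        s'.card := by
      exact_mod_cast Finset.card_filter_add_card_filter_not (s := s') (fun u => R u o)
    calc ((s'.filter (fun u => ¬ R u o)).card : ℝ) ≤ (1 - p) * s'.card := by linarith
      _ ≤ (1 - p) * ((1 - p) ^ T * s.card) := mul_le_mul_of_nonneg_left hω (by linarith)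
      _ = (1 - p) ^ (T + 1) * s.card := by ring

theorem exists_cover {X J : Type} [Fintype J] [Nonempty J] (S : J → Set X) (q : ℝ)
    (hq0 : 0 ≤ q) (hq1 : q ≤ 1)
    (h : ∀ x, q * Fintype.card J ≤ (Nat.card {j : J // x ∈ S j} : ℝ)) (N T : ℕ)
    (hT : (1 - q ^ N) ^ T * ((2 : ℝ) ^ (Fintype.card J)) ^ N < 1) :
    ∃ τ : Fin T → Fin N → J, ∀ x : Fin N → X, ∃ t, ∀ i, x i ∈ S (τ t i) := by
  classical
  let U := {u : Fin N → Finset J // ∀ i, q * Fintype.card J ≤ ((u i).card : ℝ)}
  obtain ⟨τ, hτ⟩ := greedy (U := U) (Ω := Fin N → J) (fun u ω => ∀ i, ω i ∈ u.1 i) (q ^ N)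
    (pow_le_one₀ hq0 hq1) (by
      intro u
      have e1 : (Finset.univ.filter (fun ω : Fin N → J => ∀ i, ω i ∈ u.1 i)) =
          Fintype.piFinset u.1 := by
        ext ω
        simp [Fintype.mem_piFinset]
      rw [e1, Fintype.card_piFinset]
      push_cast
      calc q ^ N * (Fintype.card (Fin N → J) : ℝ) = ∏ _i : Fin N, q * (Fintype.card J : ℝ) := by
            rw [Finset.prod_const, Finset.card_univ, Fintype.card_fin, mul_pow, Fintype.card_fun,
              Fintype.card_fin]
            push_cast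
            ring
        _ ≤ _ := Finset.prod_le_prod (fun i _ => by positivity) fun i _ => u.2 i)
    Finset.univ T
  have hcard : ((Finset.univ : Finset U).card : ℝ) ≤ ((2 : ℝ) ^ (Fintype.card J)) ^ N := by
    have h1 : (Finset.univ : Finset U).card ≤ Fintype.card (Fin N → Finset J) := by
      rw [Finset.card_univ]
      exact Fintype.card_subtype_le _
    rw [Fintype.card_fun, Fintype.card_finset, Fintype.card_fin] at h1
    exact_mod_cast h1
  have h0 : 0 ≤ (1 - q ^ N) ^ T := pow_nonneg (by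
    have := pow_le_one₀ (n := N) hq0 hq1
    linarith) _
  have hlt := lt_of_le_of_lt (hτ.trans (mul_le_mul_of_nonneg_left hcard h0)) hT
  have hz : (Finset.univ.filter (fun u : U => ∀ t, ¬ ∀ i, τ t i ∈ u.1 i)).card = 0 := by
    have h2 : (Finset.univ.filter (fun u : U => ∀ t, ¬ ∀ i, τ t i ∈ u.1 i)).card < 1 := by
      exact_mod_cast hlt
    omega
  refine ⟨τ, fun x => ?_⟩
  by_contra hcon
  push Not at hcon
  let u : U := ⟨fun i => Finset.univ.filter (fun j => x i ∈ S j), by
    intro i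
    have := h (x i)
    rw [Nat.card_eq_fintype_card, Fintype.card_subtype] at this
    exact this⟩
  rw [Finset.card_eq_zero, Finset.eq_empty_iff_forall_notMem] at hz
  apply hz u
  rw [Finset.mem_filter]
  refine ⟨Finset.mem_univ _, fun t hall => ?_⟩
  obtain ⟨i, hi⟩ := hcon t
  have := hall i
  simp only [u, Finset.mem_filter, Finset.mem_univ, true_and] at this
  exact hi this

theorem le_of_pow_le {a b c : ℝ} (hb : 0 ≤ b)
    (h : ∀ N : ℕ, a ^ N ≤ (N * c + 1) * b ^ N) : a ≤ b := by
  by_contra hab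
  push Not at hab
  rcases hb.eq_or_lt with h0 | h0
  · have := h 1
    rw [← h0] at this
    simp only [pow_one, mul_zero] at this
    linarith
  · have hr : 1 < a / b := (one_lt_div h0).2 hab
    have h1 := tendsto_pow_const_div_const_pow_of_one_lt 1 hr
    have h2 := tendsto_pow_const_div_const_pow_of_one_lt 0 hr
    have h3 : Tendsto (fun n : ℕ => (n : ℝ) ^ 1 / (a / b) ^ n * c + (n : ℝ) ^ 0 / (a / b) ^ n)
        atTop (𝓝 (0 * c + 0)) := (h1.mul_const c).add h2
    rw [zero_mul, add_zero] at h3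
    obtain ⟨n, hn⟩ := (h3.eventually_lt_const (show (0 : ℝ) < 1 from one_pos)).exists
    have hpos : 0 < (a / b) ^ n := by positivity
    have e1 : (n : ℝ) ^ 1 / (a / b) ^ n * c + (n : ℝ) ^ 0 / (a / b) ^ n =
        (n * c + 1) / (a / b) ^ n := by
      field_simp
    rw [e1, div_lt_one hpos, div_pow, lt_div_iff₀ (by positivity)] at hn
    linarith [h n]

/-- Comparison through finitely many partial cohomomorphisms whose domains contain every vertex
with frequency at least `q`. -/
theorem Spectrum.le_of_partial (φ : Spectrum) (A B : GInf) {J : Type} [Fintype J] [Nonempty J]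
    (S : J → Set A.V) (f : J → A.V → B.V)
    (hf : ∀ j, ∀ u ∈ S j, ∀ v ∈ S j, Sep A.G u v → Sep B.G (f j u) (f j v))
    (q : ℝ) (hq0 : 0 < q) (hq1 : q ≤ 1)
    (h : ∀ x, q * Fintype.card J ≤ (Nat.card {j : J // x ∈ S j} : ℝ)) :
    φ.F A ≤ φ.F B / q := by
  refine le_of_pow_le (c := Fintype.card J) (div_nonneg (φ.nonneg B) hq0.le) fun N => ?_
  have hqN : 0 < q ^ N := pow_pos hq0 N
  have hqN1 : q ^ N ≤ 1 := pow_le_one₀ hq0.le hq1
  set L : ℝ := N * Fintype.card J * Real.log 2 with hL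
  have hL0 : 0 ≤ L := by positivity
  set T : ℕ := ⌊L / q ^ N⌋₊ + 1 with hTdef
  have hT1 : L / q ^ N < T := by
    rw [hTdef]
    push_cast
    exact Nat.lt_floor_add_one _
  have hT2 : (T : ℝ) ≤ L / q ^ N + 1 := by
    rw [hTdef]
    push_cast
    have := Nat.floor_le (show 0 ≤ L / q ^ N by positivity)
    linarith
  have hT : (1 - q ^ N) ^ T * ((2 : ℝ) ^ (Fintype.card J)) ^ N < 1 := by
    have h1 : (1 - q ^ N) ^ T ≤ Real.exp (-(q ^ N) * T) := by
      have h2 : 1 - q ^ N ≤ Real.exp (-(q ^ N)) := by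
        have := Real.add_one_le_exp (-(q ^ N))
        linarith
      calc (1 - q ^ N) ^ T ≤ Real.exp (-(q ^ N)) ^ T := pow_le_pow_left₀ (by linarith) h2 T
        _ = Real.exp (-(q ^ N) * T) := by rw [← Real.exp_nat_mul]; ring_nf
    have h3 : ((2 : ℝ) ^ (Fintype.card J)) ^ N = Real.exp L := by
      rw [hL, ← pow_mul, ← Real.exp_log (show (0 : ℝ) < 2 by norm_num), ← Real.exp_nat_mul,
        Real.log_exp]
      push_cast
      ring_nf
    rw [h3]
    calc (1 - q ^ N) ^ T * Real.exp L ≤ Real.exp (-(q ^ N) * T) * Real.exp L :=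
          mul_le_mul_of_nonneg_right h1 (Real.exp_pos _).le
      _ = Real.exp (L - q ^ N * T) := by rw [← Real.exp_add]; ring_nf
      _ < 1 := by
          rw [Real.exp_lt_one_iff]
          rw [div_lt_iff₀ hqN] at hT1
          linarith
  obtain ⟨τ, hτ⟩ := exists_cover S q hq0.le hq1 h N T hT
  have h4 := φ.mono _ _ (pow_le_of_cover A B S f hf N T τ hτ)
  rw [φ.mul, φ.norm, φ.pow, φ.pow] at h4
  have hlog : Real.log 2 ≤ 1 := by
    have := Real.log_le_sub_one_of_pos (show (0 : ℝ) < 2 by norm_num)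
    linarith
  have hT3 : (T : ℝ) ≤ (N * Fintype.card J + 1) / q ^ N := by
    refine hT2.trans ?_
    rw [add_div]
    have h5 : L / q ^ N ≤ N * Fintype.card J / q ^ N := by
      refine div_le_div_of_nonneg_right ?_ hqN.le
      rw [hL]
      exact mul_le_of_le_one_right (by positivity) hlog
    have h6 : 1 ≤ 1 / q ^ N := by
      rw [le_div_iff₀ hqN]
      linarith
    linarith
  calc φ.F A ^ N ≤ T * φ.F B ^ N := h4
    _ ≤ (N * Fintype.card J + 1) / q ^ N * φ.F B ^ N :=
        mul_le_mul_of_nonneg_right hT3 (pow_nonneg (φ.nonneg B) N)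
    _ = (N * Fintype.card J + 1) * (φ.F B / q) ^ N := by
        rw [div_pow]
        ring

end Pool.Agent.AsympSpec
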