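import Mathlib

/-!
# Shift graphs on finite sets of natural numbers

`Shift A B`: `B` arises from `A` by deleting the smallest element and adding a new largest
element.  For every number of colours the shift graph on large enough ground sets has a
monochromatic edge.  A random linear order of the ground set makes most of the shift graph
bipartite.
-/

set_option autoImplicit false

open Set Filter Topology

namespace Pool.Agent.AsympSpec

/-- `B` arises from `A` by deleting the smallest and adding a new largest element. -/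
def Shift (A B : Finset ℕ) : Prop :=
  ∃ (h : A.Nonempty) (x : ℕ), (∀ a ∈ A, a < x) ∧ B = insert x (A.erase (A.min' h))

theorem Shift.ne {A B : Finset ℕ} (h : Shift A B) : A ≠ B := by
  obtain ⟨_, x, hx, rfl⟩ := h
  intro h1
  have : x ∈ A := by
    rw [h1]
    exact Finset.mem_insert_self _ _
  exact lt_irrefl _ (hx x this)

/-- a monochromatic edge in the shift graph -/
theorem mono_edge (k : ℕ) : ∀ (C : Type) [Finite C], ∃ N : ℕ, ∀ χ : Finset ℕ → C,
    ∃ A B : Finset ℕ, A.card = k + 1 ∧ B.card = k + 1 ∧ A ⊆ Finset.range N ∧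
      B ⊆ Finset.range N ∧ Shift A B ∧ χ A = χ B := by
  induction k with
  | zero =>
    intro C hC
    have := Fintype.ofFinite C
    refine ⟨Fintype.card C + 1, fun χ => ?_⟩
    have key : ∀ i j : ℕ, i < j → j < Fintype.card C + 1 → χ {i} = χ {j} →
        ∃ A B : Finset ℕ, A.card = 0 + 1 ∧ B.card = 0 + 1 ∧
          A ⊆ Finset.range (Fintype.card C + 1) ∧ B ⊆ Finset.range (Fintype.card C + 1) ∧
          Shift A B ∧ χ A = χ B := by
      intro i j hij hj hχ
      refine ⟨{i}, {j}, by simp, by simp, ?_, ?_, ?_, hχ⟩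
      · rw [Finset.singleton_subset_iff, Finset.mem_range]
        omega
      · rw [Finset.singleton_subset_iff, Finset.mem_range]
        exact hj
      · refine ⟨Finset.singleton_nonempty i, j, ?_, ?_⟩
        · intro a ha
          rw [Finset.mem_singleton] at ha
          omega
        · simp
    obtain ⟨i, hi, j, hj, hij, hχ⟩ := Finset.exists_ne_map_eq_of_card_lt_of_maps_to
      (s := Finset.range (Fintype.card C + 1)) (t := (Finset.univ : Finset C))
      (f := fun i => χ {i}) (by simp) (fun _ _ => Finset.mem_coe.2 (Finset.mem_univ _))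
    rw [Finset.mem_range] at hi hj
    rcases lt_or_gt_of_ne hij with h | h
    · exact key i j h hj hχ
    · exact key j i h hi hχ.symm
  | succ k ih =>
    intro C hC
    obtain ⟨N, hN⟩ := ih (Set C)
    refine ⟨N, fun χ => ?_⟩
    obtain ⟨A, B, hA, hB, hAN, hBN, ⟨hne, x, hx, hBx⟩, hχ⟩ :=
      hN (fun A => {c | ∃ j < N, (∀ a ∈ A, a < j) ∧ χ (insert j A) = c})
    have hxB : x ∈ B := by
      rw [hBx]
      exact Finset.mem_insert_self _ _
    have hxN : x < N := Finset.mem_range.1 (hBN hxB)
    have hmem : χ (insert x A) ∈ {c | ∃ j < N, (∀ a ∈ A, a < j) ∧ χ (insert j A) = c} :=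
      ⟨x, hxN, hx, rfl⟩
    have hmem2 : χ (insert x A) ∈ {c | ∃ j < N, (∀ a ∈ B, a < j) ∧ χ (insert j B) = c} :=
      (Set.ext_iff.1 hχ _).1 hmem
    obtain ⟨j, hjN, hj, hjχ⟩ := hmem2
    have hxA : x ∉ A := fun h => lt_irrefl _ (hx x h)
    have hjB : j ∉ B := fun h => lt_irrefl _ (hj j h)
    refine ⟨insert x A, insert j B, ?_, ?_, ?_, ?_, ?_, hjχ.symm⟩
    · rw [Finset.card_insert_of_notMem hxA, hA]
    · rw [Finset.card_insert_of_notMem hjB, hB]
    · exact Finset.insert_subset (Finset.mem_range.2 hxN) hAN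
    · exact Finset.insert_subset (Finset.mem_range.2 hjN) hBN
    · refine ⟨Finset.insert_nonempty _ _, j, ?_, ?_⟩
      · intro a ha
        rcases Finset.mem_insert.1 ha with h | h
        · rw [h]
          exact hj x hxB
        · exact (hx a h).trans (hj x hxB)
      · have hmin : (insert x A).min' (Finset.insert_nonempty _ _) = A.min' hne := by
          rw [Finset.min'_insert x A hne]
          exact min_eq_right (hx _ (Finset.min'_mem _ _)).le
        rw [hmin, Finset.erase_insert_of_ne (hx _ (Finset.min'_mem _ _)).ne', ← hBx]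

/-- `a` has the largest label in `A` -/
def IsTop (lab : ℕ → ℕ) (A : Finset ℕ) (a : ℕ) : Prop := a ∈ A ∧ ∀ b ∈ A, lab b ≤ lab a

theorem exists_top (lab : ℕ → ℕ) (A : Finset ℕ) (h : A.Nonempty) : ∃ a, IsTop lab A a := by
  obtain ⟨a, ha, hmax⟩ := Finset.exists_max_image A lab h
  exact ⟨a, ha, hmax⟩

theorem top_unique {lab : ℕ → ℕ} (hinj : Function.Injective lab) {A : Finset ℕ} {a b : ℕ}
    (ha : IsTop lab A a) (hb : IsTop lab A b) : a = b :=
  hinj (le_antisymm (hb.2 a ha.1) (ha.2 b hb.1))

/-- the top element is neither the first nor the last -/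
def Inner (lab : ℕ → ℕ) (A : Finset ℕ) : Prop :=
  ∀ a, IsTop lab A a → (∃ a' ∈ A, a' < a) ∧ ∃ b' ∈ A, a < b'

theorem top_shift {lab : ℕ → ℕ} (hinj : Function.Injective lab) {A B : Finset ℕ}
    (hs : Shift A B) (hA : Inner lab A) (hB : Inner lab B) {a b : ℕ} (ha : IsTop lab A a)
    (hb : IsTop lab B b) :
    (A.filter (fun c => c < a)).card = (B.filter (fun c => c < b)).card + 1 := by
  obtain ⟨hne, x, hx, rfl⟩ := hs
  set m := A.min' hne with hm
  obtain ⟨⟨a', ha', haa'⟩, _⟩ := hA a ha
  obtain ⟨_, ⟨b', hb', hbb'⟩⟩ := hB b hb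
  have hma : m < a := lt_of_le_of_lt (A.min'_le a' ha') haa'
  have haB : a ∈ insert x (A.erase m) := by
    rw [Finset.mem_insert, Finset.mem_erase]
    exact Or.inr ⟨hma.ne', ha.1⟩
  have hbx : b ≠ x := by
    rintro rfl
    rcases Finset.mem_insert.1 hb' with h | h
    · omega
    · have := hx b' (Finset.mem_of_mem_erase h)
      omega
  have hbA : b ∈ A := by
    rcases Finset.mem_insert.1 hb.1 with h | h
    · exact absurd h hbx
    · exact Finset.mem_of_mem_erase h
  have hab : a = b := hinj (le_antisymm (hb.2 a haB) (ha.2 b hbA))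
  subst hab
  have hax : a < x := hx a ha.1
  have e1 : (insert x (A.erase m)).filter (fun c => c < a) =
      (A.filter (fun c => c < a)).erase m := by
    ext c
    simp only [Finset.mem_filter, Finset.mem_insert, Finset.mem_erase]
    constructor
    · rintro ⟨h | h, h2⟩
      · omega
      · exact ⟨h.1, h.2, h2⟩
    · rintro ⟨h1, h2, h3⟩
      exact ⟨Or.inr ⟨h1, h2⟩, h3⟩
  have hmem : m ∈ A.filter (fun c => c < a) := by
    rw [Finset.mem_filter]
    exact ⟨A.min'_mem hne, hma⟩
  rw [e1, Finset.card_erase_of_mem hmem]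
  have := Finset.card_pos.2 ⟨m, hmem⟩
  omega

/-- the colour of a set with respect to a labelling -/
def Col (lab : ℕ → ℕ) (A : Finset ℕ) : Prop :=
  ∃ a, IsTop lab A a ∧ Even (A.filter (fun c => c < a)).card

theorem col_shift {lab : ℕ → ℕ} (hinj : Function.Injective lab) {A B : Finset ℕ}
    (hs : Shift A B) (hA : Inner lab A) (hB : Inner lab B) : Col lab A ↔ ¬ Col lab B := by
  have hBne : B.Nonempty := by
    obtain ⟨_, x, _, rfl⟩ := hs
    exact Finset.insert_nonempty _ _
  obtain ⟨a, ha⟩ := exists_top lab A hs.choose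
  obtain ⟨b, hb⟩ := exists_top lab B hBne
  have h := top_shift hinj hs hA hB ha hb
  have hcA : Col lab A ↔ Even (A.filter (fun c => c < a)).card := by
    constructor
    · rintro ⟨a', ha', he⟩
      rw [top_unique hinj ha ha']
      exact he
    · intro he
      exact ⟨a, ha, he⟩
  have hcB : Col lab B ↔ Even (B.filter (fun c => c < b)).card := by
    constructor
    · rintro ⟨a', ha', he⟩
      rw [top_unique hinj hb ha']
      exact he
    · intro he
      exact ⟨b, hb, he⟩
  rw [hcA, hcB, h, Nat.even_add_one]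

/-- labelling of the natural numbers from a permutation of an initial segment -/
def lab {L : ℕ} (σ : Equiv.Perm (Fin L)) (i : ℕ) : ℕ := if h : i < L then (σ ⟨i, h⟩ : ℕ) else i

theorem lab_injective {L : ℕ} (σ : Equiv.Perm (Fin L)) : Function.Injective (lab σ) := by
  intro i j hij
  unfold lab at hij
  by_cases hi : i < L
  · by_cases hj : j < L
    · rw [dif_pos hi, dif_pos hj] at hij
      have := σ.injective (Fin.val_injective hij)
      simpa using this
    · rw [dif_pos hi, dif_neg hj] at hij
      have := (σ ⟨i, hi⟩).2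
      omega
  · by_cases hj : j < L
    · rw [dif_neg hi, dif_pos hj] at hij
      have := (σ ⟨j, hj⟩).2
      omega
    · rw [dif_neg hi, dif_neg hj] at hij
      exact hij

theorem lab_swap {L : ℕ} (σ : Equiv.Perm (Fin L)) (a b : ℕ) (ha : a < L) (hb : b < L) (c : ℕ) :
    lab (σ * Equiv.swap ⟨a, ha⟩ ⟨b, hb⟩) c = lab σ (Equiv.swap a b c) := by
  unfold lab
  by_cases hc : c < L
  · rw [dif_pos hc, Equiv.Perm.mul_apply]
    rcases eq_or_ne c a with h1 | h1
    · subst h1
      rw [Equiv.swap_apply_left, Equiv.swap_apply_left, dif_pos hb]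
    · rcases eq_or_ne c b with h2 | h2
      · subst h2
        rw [Equiv.swap_apply_right, Equiv.swap_apply_right, dif_pos ha]
      · rw [Equiv.swap_apply_of_ne_of_ne h1 h2, Equiv.swap_apply_of_ne_of_ne, dif_pos hc]
        · intro h
          exact h1 (congrArg Fin.val h)
        · intro h
          exact h2 (congrArg Fin.val h)
  · have h1 : c ≠ a := by rintro rfl; exact hc ha
    have h2 : c ≠ b := by rintro rfl; exact hc hb
    rw [dif_neg hc, Equiv.swap_apply_of_ne_of_ne h1 h2, dif_neg hc]

theorem swap_mem {A : Finset ℕ} {a b c : ℕ} (ha : a ∈ A) (hb : b ∈ A) (hc : c ∈ A) :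
    Equiv.swap a b c ∈ A := by
  rcases eq_or_ne c a with h1 | h1
  · subst h1
    rwa [Equiv.swap_apply_left]
  · rcases eq_or_ne c b with h2 | h2
    · subst h2
      rwa [Equiv.swap_apply_right]
    · rwa [Equiv.swap_apply_of_ne_of_ne h1 h2]

theorem isTop_swap {L : ℕ} (σ : Equiv.Perm (Fin L)) (A : Finset ℕ) (a b : ℕ) (ha : a < L)
    (hb : b < L) (haA : a ∈ A) (hbA : b ∈ A) (h : IsTop (lab σ) A a) :
    IsTop (lab (σ * Equiv.swap ⟨a, ha⟩ ⟨b, hb⟩)) A b := by
  refine ⟨hbA, fun c hc => ?_⟩
  rw [lab_swap, lab_swap, Equiv.swap_apply_right]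
  exact h.2 _ (swap_mem haA hbA hc)

open Classical in
/-- the number of orders for which `a` is on top of `A` -/
theorem card_top {L : ℕ} (A : Finset ℕ) (hA : A ⊆ Finset.range L) (a : ℕ) (ha : a ∈ A) :
    A.card * (Finset.univ.filter (fun σ : Equiv.Perm (Fin L) => IsTop (lab σ) A a)).card =
      Fintype.card (Equiv.Perm (Fin L)) := by
  have hlt : ∀ c ∈ A, c < L := fun c hc => Finset.mem_range.1 (hA hc)
  have heq : ∀ b ∈ A, (Finset.univ.filter (fun σ : Equiv.Perm (Fin L) =>
      IsTop (lab σ) A b)).card =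
        (Finset.univ.filter (fun σ : Equiv.Perm (Fin L) => IsTop (lab σ) A a)).card := by
    intro b hb
    refine Finset.card_bij' (fun σ _ => σ * Equiv.swap ⟨b, hlt b hb⟩ ⟨a, hlt a ha⟩)
      (fun σ _ => σ * Equiv.swap ⟨a, hlt a ha⟩ ⟨b, hlt b hb⟩) ?_ ?_ ?_ ?_
    · intro σ hσ
      rw [Finset.mem_filter] at hσ ⊢
      exact ⟨Finset.mem_univ _, isTop_swap σ A b a _ _ hb ha hσ.2⟩
    · intro σ hσ
      rw [Finset.mem_filter] at hσ ⊢
      exact ⟨Finset.mem_univ _, isTop_swap σ A a b _ _ ha hb hσ.2⟩
    · intro σ _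
      rw [mul_assoc, Equiv.swap_comm (⟨a, hlt a ha⟩ : Fin L), Equiv.swap_mul_self, mul_one]
    · intro σ _
      rw [mul_assoc, Equiv.swap_comm (⟨b, hlt b hb⟩ : Fin L), Equiv.swap_mul_self, mul_one]
  have hsum : ∑ b ∈ A, (Finset.univ.filter (fun σ : Equiv.Perm (Fin L) =>
      IsTop (lab σ) A b)).card = Fintype.card (Equiv.Perm (Fin L)) := by
    rw [← Finset.card_biUnion]
    · rw [← Finset.card_univ]
      congr 1
      ext σ
      simp only [Finset.mem_biUnion, Finset.mem_filter, Finset.mem_univ, true_and, iff_true]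
      obtain ⟨b, hb⟩ := exists_top (lab σ) A ⟨a, ha⟩
      exact ⟨b, hb.1, hb⟩
    · intro b _ c _ hbc
      rw [Function.onFun, Finset.disjoint_left]
      intro σ h1 h2
      rw [Finset.mem_filter] at h1 h2
      exact hbc (top_unique (lab_injective σ) h1.2 h2.2)
  rw [← hsum, Finset.sum_congr rfl heq, Finset.sum_const, smul_eq_mul]

open Classical in
/-- most orders are good for a given set -/
theorem card_inner {L : ℕ} (A : Finset ℕ) (hA : A ⊆ Finset.range L) (n : ℕ) (hn : 1 ≤ n)
    (hcard : n ≤ A.card) :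
    (1 - 2 / (n : ℝ)) * Fintype.card (Equiv.Perm (Fin L)) ≤
      ((Finset.univ.filter (fun σ : Equiv.Perm (Fin L) => Inner (lab σ) A)).card : ℝ) := by
  have hne : A.Nonempty := Finset.card_pos.1 (by omega)
  set P : ℝ := (Fintype.card (Equiv.Perm (Fin L)) : ℝ) with hP
  have hP0 : 0 ≤ P := by positivity
  have hc0 : (0 : ℝ) < A.card := by
    have : 0 < A.card := by omega
    exact_mod_cast this
  have h1 : ((Finset.univ.filter (fun σ : Equiv.Perm (Fin L) =>
      IsTop (lab σ) A (A.min' hne))).card : ℝ) = P / A.card := by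
    rw [eq_div_iff hc0.ne', mul_comm, hP]
    exact_mod_cast card_top A hA _ (A.min'_mem hne)
  have h2 : ((Finset.univ.filter (fun σ : Equiv.Perm (Fin L) =>
      IsTop (lab σ) A (A.max' hne))).card : ℝ) = P / A.card := by
    rw [eq_div_iff hc0.ne', mul_comm, hP]
    exact_mod_cast card_top A hA _ (A.max'_mem hne)
  have hcov : (Finset.univ : Finset (Equiv.Perm (Fin L))) ⊆
      (Finset.univ.filter (fun σ : Equiv.Perm (Fin L) => Inner (lab σ) A)) ∪
      ((Finset.univ.filter (fun σ : Equiv.Perm (Fin L) => IsTop (lab σ) A (A.min' hne))) ∪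
      (Finset.univ.filter (fun σ : Equiv.Perm (Fin L) => IsTop (lab σ) A (A.max' hne)))) := by
    intro σ _
    simp only [Finset.mem_union, Finset.mem_filter, Finset.mem_univ, true_and]
    by_cases hin : Inner (lab σ) A
    · exact Or.inl hin
    · right
      unfold Inner at hin
      push Not at hin
      obtain ⟨a, ha, hh⟩ := hin
      by_cases hmin : a = A.min' hne
      · left
        rw [← hmin]
        exact ha
      · right
        have h3 : A.min' hne < a := lt_of_le_of_ne (A.min'_le a ha.1) (Ne.symm hmin)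
        have h4 := hh ⟨_, A.min'_mem hne, h3⟩
        have h5 : a = A.max' hne :=
          le_antisymm (A.le_max' a ha.1) (h4 _ (A.max'_mem hne))
        rw [← h5]
        exact ha
  have h6 := (Finset.card_le_card hcov).trans ((Finset.card_union_le _ _).trans
    (Nat.add_le_add_left (Finset.card_union_le _ _) _))
  rw [Finset.card_univ] at h6
  have h7 : P ≤ ((Finset.univ.filter (fun σ : Equiv.Perm (Fin L) => Inner (lab σ) A)).card : ℝ) +
      (((Finset.univ.filter (fun σ : Equiv.Perm (Fin L) =>
        IsTop (lab σ) A (A.min' hne))).card : ℝ) +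
      ((Finset.univ.filter (fun σ : Equiv.Perm (Fin L) =>
        IsTop (lab σ) A (A.max' hne))).card : ℝ)) := by
    rw [hP]
    exact_mod_cast h6
  rw [h1, h2] at h7
  have h8 : P / A.card ≤ P / n := by
    have hn0 : (0 : ℝ) < n := by exact_mod_cast hn
    exact div_le_div_of_nonneg_left hP0 hn0 (by exact_mod_cast hcard)
  have e1 : (1 - 2 / (n : ℝ)) * P = P - (P / n + P / n) := by ring
  rw [e1]
  linarith

end Pool.Agent.AsympSpec
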