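import Pool.Agent.Lib_MP_d03f2b_co.FC
import Pool.Agent.Lib_MP_d03f2b_co.Odd
import Pool.Agent.Lib_MP_d03f2b_co.Pow
import Pool.Agent.Lib_MP_d03f2b_co.Shift

/-!
# The sequence of graphs
-/

set_option autoImplicit false

open Set Filter Topology

namespace Pool.Agent.AsympSpec

/-- size of the ground set used for sets with `c` elements -/
noncomputable def ground (c : ℕ) : ℕ := (mono_edge (c - 1) (Fin c)).choose

/-- a vertex which is not isolated -/
def Good (n : ℕ) (x : Finset ℕ × Fin 3) : Prop :=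
  n ≤ x.1.card ∧ x.1 ⊆ Finset.range (ground x.1.card)

/-- the disjoint union over `c ≥ n` of the products of the shift graph on `c`-element sets
with a triangle (and isolated vertices) -/
def K (n : ℕ) : SimpleGraph (Finset ℕ × Fin 3) where
  Adj x y := Good n x ∧ Good n y ∧ x.1.card = y.1.card ∧ (Shift x.1 y.1 ∨ Shift y.1 x.1) ∧
    x.2 ≠ y.2
  symm := ⟨fun _ _ h => ⟨h.2.1, h.1, h.2.2.1.symm, h.2.2.2.1.symm, h.2.2.2.2.symm⟩⟩
  loopless := ⟨fun _ h => h.2.2.2.2 rfl⟩

/-- the complement of `K n`, as an element of the class -/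
def Gr (n : ℕ) : GInf where
  V := Finset ℕ × Fin 3
  G := (K n)ᶜ
  card_le := (Cardinal.mk_le_aleph0).trans Cardinal.aleph0_le_continuum
  cover := ⟨3, fun x => x.2, by
    rw [isCohom_iff]
    intro x y hxy
    rw [sep_compl] at hxy
    exact (sep_bot _ _).2 hxy.2.2.2.2⟩

theorem Gr_sep (n : ℕ) (x y : Finset ℕ × Fin 3) : Sep (Gr n).G x y ↔ (K n).Adj x y :=
  sep_compl _ _ _

theorem Gr_le_three (n : ℕ) : CoLe (Gr n).G (GInf.E 3).G := by
  refine ⟨fun x => x.2, ?_⟩
  rw [isCohom_iff]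
  intro x y hxy
  have h := (Gr_sep n x y).1 hxy
  exact (sep_bot _ _).2 h.2.2.2.2

theorem Gr_anti {m n : ℕ} (h : n ≤ m) : CoLe (Gr m).G (Gr n).G := by
  refine ⟨id, ?_⟩
  rw [isCohom_iff]
  intro x y hxy
  have h1 := (Gr_sep m x y).1 hxy
  refine (Gr_sep n x y).2 ⟨⟨h.trans h1.1.1, h1.1.2⟩, ⟨h.trans h1.2.1.1, h1.2.1.2⟩, h1.2.2⟩

/-- a monochromatic pair: for any map to a finite type there is an edge of the shift graph at
arbitrarily high level with equal values -/
theorem exists_edge (n : ℕ) (C : Type) [Finite C] (χ : Finset ℕ → C) :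
    ∃ A B : Finset ℕ, (∀ a : Fin 3, Good n (A, a)) ∧ (∀ a : Fin 3, Good n (B, a)) ∧
      A.card = B.card ∧ Shift A B ∧ χ A = χ B := by
  have := Fintype.ofFinite C
  set c := max n (Fintype.card C) + 1 with hc
  obtain ⟨e⟩ := Function.Embedding.nonempty_of_card_le (α := C) (β := Fin c)
    (by rw [Fintype.card_fin]; omega)
  obtain ⟨A, B, hA, hB, hAN, hBN, hs, hχ⟩ :=
    (mono_edge (c - 1) (Fin c)).choose_spec (fun A => e (χ A))
  have hA' : A.card = c := by omega
  have hB' : B.card = c := by omega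
  refine ⟨A, B, fun a => ⟨?_, ?_⟩, fun a => ⟨?_, ?_⟩, ?_, hs, e.injective hχ⟩
  · change n ≤ A.card
    omega
  · change A ⊆ Finset.range (ground A.card)
    rw [hA']
    exact hAN
  · change n ≤ B.card
    omega
  · change B ⊆ Finset.range (ground B.card)
    rw [hB']
    exact hBN
  · omega

/-- the finite fractional clique cover number of all graphs of the sequence is at least 3 -/
theorem three_le_fc (n : ℕ) : 3 ≤ fc (Gr n).G := by
  classical
  refine le_csInf (fcSet_nonempty (Gr n)) ?_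
  rintro t ⟨ι, _, Q, c, h, rfl⟩
  obtain ⟨A, B, hA, hB, hcard, hs, hχ⟩ := exists_edge n (Fin 3 → Set ι)
    (fun A a => {i | ((A, a) : Finset ℕ × Fin 3) ∈ Q i})
  have hmem : ∀ (a : Fin 3) (i : ι), ((A, a) : Finset ℕ × Fin 3) ∈ Q i ↔
      ((B, a) : Finset ℕ × Fin 3) ∈ Q i := fun a i => Set.ext_iff.1 (congrFun hχ a) i
  have hdis : ∀ i (a b : Fin 3), a ≠ b → ((A, a) : Finset ℕ × Fin 3) ∈ Q i →
      ((A, b) : Finset ℕ × Fin 3) ∉ Q i := by
    intro i a b hab h1 h2
    exact h.clique i _ h1 _ ((hmem b i).1 h2)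
      ((Gr_sep n _ _).2 ⟨hA a, hB b, hcard, Or.inl hs, hab⟩)
  calc (3 : ℝ) = ∑ _a : Fin 3, (1 : ℝ) := by simp
    _ ≤ ∑ a : Fin 3, ∑ i, (Q i).indicator (fun _ => c i) ((A, a) : Finset ℕ × Fin 3) :=
        Finset.sum_le_sum fun a _ => h.cover (A, a)
    _ = ∑ i, ∑ a : Fin 3, (Q i).indicator (fun _ => c i) ((A, a) : Finset ℕ × Fin 3) :=
        Finset.sum_comm
    _ ≤ ∑ i, c i := by
        refine Finset.sum_le_sum fun i _ => ?_
        by_cases hne : ∃ a : Fin 3, ((A, a) : Finset ℕ × Fin 3) ∈ Q i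
        · obtain ⟨a, ha⟩ := hne
          rw [Finset.sum_eq_single a]
          · exact (indicator_of_mem ha _).le
          · intro b _ hba
            exact indicator_of_notMem (hdis i a b hba.symm ha) _
          · intro hh
            exact absurd (Finset.mem_univ a) hh
        · refine le_trans (le_of_eq ?_) (h.nonneg i)
          exact Finset.sum_eq_zero fun a _ => indicator_of_notMem (fun ha => hne ⟨a, ha⟩) _

/-- the domain of the partial map given by an order, for levels below `m` -/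
def Dom {L : ℕ} (n m : ℕ) (σ : Equiv.Perm (Fin L)) : Set (Finset ℕ × Fin 3) :=
  {x | Good n x → x.1.card < m → Inner (lab σ) x.1}

theorem dom_card {L : ℕ} (n m : ℕ) (hn : 1 ≤ n) (hL : ∀ c < m, ground c ≤ L)
    (x : Finset ℕ × Fin 3) :
    (1 - 2 / (n : ℝ)) * Fintype.card (Equiv.Perm (Fin L)) ≤
      (Nat.card {σ : Equiv.Perm (Fin L) // x ∈ Dom n m σ} : ℝ) := by
  classical
  have hn0 : (0 : ℝ) < n := by exact_mod_cast hn
  by_cases hx : Good n x ∧ x.1.card < m
  · refine (card_inner x.1 ?_ n hn hx.1.1).trans ?_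
    · refine hx.1.2.trans ?_
      intro a ha
      rw [Finset.mem_range] at ha ⊢
      exact lt_of_lt_of_le ha (hL _ hx.2)
    · rw [Nat.card_eq_fintype_card, Fintype.card_subtype]
      have : (Finset.univ.filter (fun σ : Equiv.Perm (Fin L) => Inner (lab σ) x.1)) ⊆
          (Finset.univ.filter (fun σ : Equiv.Perm (Fin L) => x ∈ Dom n m σ)) := by
        intro σ hσ
        rw [Finset.mem_filter] at hσ ⊢
        exact ⟨hσ.1, fun _ _ => hσ.2⟩
      exact_mod_cast Finset.card_le_card this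
  · have hall : ∀ σ : Equiv.Perm (Fin L), x ∈ Dom n m σ := fun σ h1 h2 => absurd ⟨h1, h2⟩ hx
    have e1 : Nat.card {σ : Equiv.Perm (Fin L) // x ∈ Dom n m σ} =
        Fintype.card (Equiv.Perm (Fin L)) := by
      rw [Nat.card_eq_fintype_card]
      exact Fintype.card_of_subtype Finset.univ (fun σ => by simp [hall σ])
    rw [e1]
    have : 0 ≤ 2 / (n : ℝ) := by positivity
    exact mul_le_of_le_one_left (Nat.cast_nonneg _) (by linarith)

theorem dom_col {L : ℕ} (n m : ℕ) (σ : Equiv.Perm (Fin L)) (x y : Finset ℕ × Fin 3)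
    (hx : x ∈ Dom n m σ) (hy : y ∈ Dom n m σ) (h : (K n).Adj x y) (hc : x.1.card < m) :
    Col (lab σ) x.1 ↔ ¬ Col (lab σ) y.1 := by
  have h1 := hx h.1 hc
  have h2 := hy h.2.1 (by rw [← h.2.2.1]; exact hc)
  rcases h.2.2.2.1 with hs | hs
  · exact col_shift (lab_injective σ) hs h1 h2
  · have := col_shift (lab_injective σ) hs h2 h1
    tauto

/-- existence of a large enough ground set -/
theorem exists_L (m : ℕ) : ∃ L : ℕ, ∀ c < m, ground c ≤ L :=
  ⟨(Finset.range m).sup ground, fun _ hc => Finset.le_sup (f := ground) (Finset.mem_range.2 hc)⟩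

/-- The packing number of the `n`-th graph is at most `2 / (1 - 2 / n)`. -/
theorem fp_K_le (n : ℕ) (hn : 3 ≤ n) : fp (K n)ᶜ ≤ 2 / (1 - 2 / (n : ℝ)) := by
  classical
  have hn0 : (3 : ℝ) ≤ n := by exact_mod_cast hn
  have hq : 0 < 1 - 2 / (n : ℝ) := by
    rw [sub_pos, div_lt_one (by linarith)]
    linarith
  refine csSup_le (fpSet_nonempty _) ?_
  rintro t ⟨s, w, h, rfl⟩
  rw [le_div_iff₀ hq]
  -- `m` bounds all levels occurring in `s`
  obtain ⟨m, hm⟩ : ∃ m : ℕ, ∀ x ∈ s, x.1.card < m := by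
    refine ⟨s.sup (fun x => x.1.card) + 1, fun x hx => Nat.lt_succ_of_le ?_⟩
    exact Finset.le_sup (f := fun x : Finset ℕ × Fin 3 => x.1.card) hx
  obtain ⟨L, hL⟩ := exists_L m
  set P : ℝ := (Fintype.card (Equiv.Perm (Fin L)) : ℝ) with hP
  have hP0 : 0 < P := by
    rw [hP]
    exact_mod_cast Fintype.card_pos
  have hσ : ∀ σ : Equiv.Perm (Fin L), ∑ x ∈ s with x ∈ Dom n m σ, w x ≤ 2 := by
    intro σ
    rw [← Finset.sum_filter_add_sum_filter_not (s.filter (fun x => x ∈ Dom n m σ))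
      (fun x => Good n x → Col (lab σ) x.1)]
    have h1 : ∑ x ∈ (s.filter (fun x => x ∈ Dom n m σ)).filter
        (fun x => Good n x → Col (lab σ) x.1), w x ≤ 1 := by
      refine h.le_one _ ((Finset.filter_subset _ _).trans (Finset.filter_subset _ _)) ?_
      intro x hx y hy hxy
      rw [Finset.mem_filter, Finset.mem_filter] at hx hy
      have hadj := (sep_compl (K n) x y).1 hxy
      have h2 := dom_col n m σ x y hx.1.2 hy.1.2 hadj (hm x hx.1.1)
      exact h2.1 (hx.2 hadj.1) (hy.2 hadj.2.1)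
    have h2 : ∑ x ∈ (s.filter (fun x => x ∈ Dom n m σ)).filter
        (fun x => ¬ (Good n x → Col (lab σ) x.1)), w x ≤ 1 := by
      refine h.le_one _ ((Finset.filter_subset _ _).trans (Finset.filter_subset _ _)) ?_
      intro x hx y hy hxy
      rw [Finset.mem_filter, Finset.mem_filter] at hx hy
      have hadj := (sep_compl (K n) x y).1 hxy
      have h2 := dom_col n m σ x y hx.1.2 hy.1.2 hadj (hm x hx.1.1)
      have h3 : ¬ Col (lab σ) x.1 := fun h4 => hx.2 fun _ => h4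
      have h4 : ¬ Col (lab σ) y.1 := fun h4 => hy.2 fun _ => h4
      exact h3 (h2.2 h4)
    linarith
  have hsum : (∑ x ∈ s, w x) * (1 - 2 / (n : ℝ)) * P ≤
      ∑ σ : Equiv.Perm (Fin L), ∑ x ∈ s with x ∈ Dom n m σ, w x := by
    have e1 : ∑ σ : Equiv.Perm (Fin L), ∑ x ∈ s with x ∈ Dom n m σ, w x =
        ∑ x ∈ s, w x * (Nat.card {σ : Equiv.Perm (Fin L) // x ∈ Dom n m σ} : ℝ) := by
      simp only [Finset.sum_filter]
      rw [Finset.sum_comm]
      refine Finset.sum_congr rfl fun x _ => ?_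
      rw [← Finset.sum_filter, Finset.sum_const, nsmul_eq_mul, Nat.card_eq_fintype_card,
        Fintype.card_subtype, mul_comm]
    rw [e1, mul_assoc, Finset.sum_mul]
    refine Finset.sum_le_sum fun x _ => mul_le_mul_of_nonneg_left ?_ (h.nonneg x)
    exact dom_card n m (by omega) hL x
  have hle : ∑ σ : Equiv.Perm (Fin L), ∑ x ∈ s with x ∈ Dom n m σ, w x ≤ 2 * P := by
    calc _ ≤ ∑ _σ : Equiv.Perm (Fin L), (2 : ℝ) := Finset.sum_le_sum fun σ _ => hσ σ
      _ = 2 * P := by rw [Finset.sum_const, Finset.card_univ, nsmul_eq_mul, mul_comm]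
  exact le_of_mul_le_mul_right (hsum.trans hle) hP0

theorem fp_Gr_le (n : ℕ) (hn : 3 ≤ n) : fp (Gr n).G ≤ 2 / (1 - 2 / (n : ℝ)) := fp_K_le n hn

open Classical in
/-- uniform comparison of the graphs of the sequence -/
theorem F_Gr_le (φ : Spectrum) (n m : ℕ) (hn : 3 ≤ n) :
    φ.F (Gr n) ≤ φ.F (Gr m) / (1 - 2 / (n : ℝ)) := by
  have hn0 : (3 : ℝ) ≤ n := by exact_mod_cast hn
  have hq : 0 < 1 - 2 / (n : ℝ) := by
    rw [sub_pos, div_lt_one (by linarith)]
    linarith
  have hq1 : 1 - 2 / (n : ℝ) ≤ 1 := by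
    have : 0 ≤ 2 / (n : ℝ) := by positivity
    linarith
  obtain ⟨L, hL⟩ := exists_L m
  obtain ⟨A, B, hA, hB, hcard, hs, _⟩ := exists_edge m Unit (fun _ => ())
  have hpp : (K m).Adj (A, 0) (B, 1) := ⟨hA 0, hB 1, hcard, Or.inl hs, by simp⟩
  let f : Equiv.Perm (Fin L) → (Gr n).V → (Gr m).V := fun σ x =>
    if x.1.card < m then (if Col (lab σ) x.1 then (A, 0) else (B, 1)) else x
  refine φ.le_of_partial (Gr n) (Gr m) (J := Equiv.Perm (Fin L)) (fun σ => Dom n m σ) f ?_
    (1 - 2 / (n : ℝ)) hq hq1 (fun x => dom_card n m (by omega) hL x)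
  intro σ x hx y hy hxy
  have hadj := (Gr_sep n x y).1 hxy
  refine (Gr_sep m _ _).2 ?_
  by_cases hc : x.1.card < m
  · have hc' : y.1.card < m := by rw [← hadj.2.2.1]; exact hc
    have h2 := dom_col n m σ x y hx hy hadj hc
    simp only [f, if_pos hc, if_pos hc']
    by_cases hcol : Col (lab σ) x.1
    · rw [if_pos hcol, if_neg (h2.1 hcol)]
      exact hpp
    · have h3 : Col (lab σ) y.1 := by
        by_contra h4
        exact hcol (h2.2 h4)
      rw [if_neg hcol, if_pos h3]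
      exact hpp.symm
  · have hc' : ¬ y.1.card < m := by rw [← hadj.2.2.1]; exact hc
    simp only [f, if_neg hc, if_neg hc']
    push Not at hc hc'
    exact ⟨⟨hc, hadj.1.2⟩, ⟨hc', hadj.2.1.2⟩, hadj.2.2⟩

end Pool.Agent.AsympSpec
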